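import Pool.Agent.Helper86.LP.PrekopaLeindler

open Set MeasureTheory Filter Topology
open scoped ENNReal

namespace Pool.Agent.Helper67.LB

open Pool.Agent.Helper86.LP

theorem lintegral_cons {k : ℕ} {f : (Fin (k + 1) → ℝ) → ℝ≥0∞} (hf : Measurable f)
    (i : Fin (k + 1)) :
    ∫⁻ x, f x = ∫⁻ v : ℝ, ∫⁻ x' : Fin k → ℝ, f (i.insertNth v x') := by
  have hmp := (volume_preserving_piFinSuccAbove (fun _ : Fin (k + 1) => ℝ) i).symm
  rw [← hmp.lintegral_comp hf]
  rw [Measure.volume_eq_prod, lintegral_prod]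
  · rfl
  · exact (hf.comp (MeasurableEquiv.measurable _)).aemeasurable

theorem measurable_insertNth {k : ℕ} (i : Fin (k + 1)) :
    Measurable (fun z : ℝ × (Fin k → ℝ) =>
      (i.insertNth z.1 z.2 : Fin (k + 1) → ℝ)) :=
  (MeasurableEquiv.piFinSuccAbove (fun _ : Fin (k + 1) => ℝ) i).symm.measurable

/-- The Prekopa-Leindler inequality in `ℝᵏ`. -/
theorem pl_pi (k : ℕ) : ∀ {f g h : (Fin k → ℝ) → ℝ≥0∞}, Measurable f → Measurable g →
    Measurable h → ∀ {l m : ℝ}, 0 < l → 0 < m → l + m = 1 →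
    (∀ x y, f x ^ l * g y ^ m ≤ h (l • x + m • y)) →
    (∫⁻ x, f x) ^ l * (∫⁻ x, g x) ^ m ≤ ∫⁻ x, h x := by
  induction k with
  | zero =>
    intro f g h hf hg hh l m hl hm hlm H
    have key : ∀ u : (Fin 0 → ℝ) → ℝ≥0∞, ∫⁻ x, u x = u default := by
      intro u
      rw [lintegral_unique]
      simp only [volume_pi, Measure.pi_empty_univ, mul_one]
      exact congrArg u (Subsingleton.elim _ _)
    rw [key, key, key]
    have h0 := H default default
    rwa [Subsingleton.elim (l • (default : Fin 0 → ℝ) + m • default) default] at h0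
  | succ k ih =>
    intro f g h hf hg hh l m hl hm hlm H
    rw [lintegral_cons hf 0, lintegral_cons hg 0, lintegral_cons hh 0]
    have hmeas : ∀ u : (Fin (k + 1) → ℝ) → ℝ≥0∞, Measurable u →
        Measurable (fun v : ℝ => ∫⁻ x' : Fin k → ℝ, u ((0 : Fin (k + 1)).insertNth v x')) := by
      intro u hu
      exact Measurable.lintegral_prod_right' (f := fun z : ℝ × (Fin k → ℝ) =>
        u ((0 : Fin (k + 1)).insertNth z.1 z.2)) (hu.comp (measurable_insertNth 0))
    refine pl_one (hmeas f hf) (hmeas g hg) (hmeas h hh) hl hm hlm ?_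
    intro v w
    have hm1 : ∀ (u : (Fin (k + 1) → ℝ) → ℝ≥0∞), Measurable u → ∀ v : ℝ,
        Measurable (fun x' : Fin k → ℝ => u ((0 : Fin (k + 1)).insertNth v x')) := by
      intro u hu v
      exact hu.comp ((measurable_insertNth 0).comp measurable_prodMk_left)
    refine ih (hm1 f hf v) (hm1 g hg w) (hm1 h hh _) hl hm hlm ?_
    intro x y
    refine (H _ _).trans (le_of_eq ?_)
    congr 1
    funext j
    refine Fin.cases ?_ (fun j => ?_) j
    · simp
    · simp

end Pool.Agent.Helper67.LB
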