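import Pool.Agent.Helper67.LB.BBL

open Set MeasureTheory Filter Topology
open scoped ENNReal

namespace Pool.Agent.Helper67.LB

theorem lintegral_inv_Ioi (F : ℝ → ℝ≥0∞) :
    ∫⁻ v in Ioi (0 : ℝ), F v
      = ∫⁻ r in Ioi (0 : ℝ), ENNReal.ofReal ((r ^ 2)⁻¹) * F r⁻¹ := by
  have himg : (fun r : ℝ => r⁻¹) '' Ioi 0 = Ioi 0 := by
    ext x
    constructor
    · rintro ⟨y, hy, rfl⟩
      exact mem_Ioi.2 (inv_pos.2 (mem_Ioi.1 hy))
    · intro hx
      exact ⟨x⁻¹, mem_Ioi.2 (inv_pos.2 (mem_Ioi.1 hx)), inv_inv x⟩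
  have h := lintegral_image_eq_lintegral_abs_deriv_mul (s := Ioi (0 : ℝ))
    (f := fun r : ℝ => r⁻¹) (f' := fun r => -(r ^ 2)⁻¹) measurableSet_Ioi
    (fun x hx => (hasDerivAt_inv (ne_of_gt hx)).hasDerivWithinAt)
    (fun x _ y _ hxy => inv_injective hxy) F
  rw [himg] at h
  rw [h]
  refine setLIntegral_congr_fun measurableSet_Ioi fun r _ => ?_
  simp only [abs_neg]
  rw [abs_of_nonneg (by positivity)]

theorem lintegral_even {F : ℝ → ℝ≥0∞} (hF : ∀ v, F (-v) = F v) :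
    ∫⁻ v, F v = 2 * ∫⁻ v in Ioi (0 : ℝ), F v := by
  have h1 : ∫⁻ v, F v = (∫⁻ v in Ioi (0 : ℝ), F v) + ∫⁻ v in Iic (0 : ℝ), F v := by
    rw [← lintegral_add_compl F measurableSet_Ioi, compl_Ioi]
  have h2 : ∫⁻ v in Iic (0 : ℝ), F v = ∫⁻ v in Iio (0 : ℝ), F v :=
    setLIntegral_congr Iio_ae_eq_Iic.symm
  have h3 : ∫⁻ v in Iio (0 : ℝ), F v = ∫⁻ v in Ioi (0 : ℝ), F v := by
    have hmp : MeasurePreserving (fun x : ℝ => -x) volume volume :=
      Measure.measurePreserving_neg volume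
    have h4 := hmp.setLIntegral_comp_preimage_emb (MeasurableEquiv.neg ℝ).measurableEmbedding F
      (Ioi (0 : ℝ))
    rw [← h4]
    have : (fun x : ℝ => -x) ⁻¹' Ioi 0 = Iio 0 := by
      ext x; simp
    rw [this]
    exact setLIntegral_congr_fun measurableSet_Iio fun v _ => (hF v).symm
  rw [h1, h2, h3, two_mul]

/-- Busemann's inequality in the plane for an even log-concave function. -/
theorem busemann_two {κ : ℝ → ℝ → ℝ≥0∞} (hκ : Measurable (Function.uncurry κ))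
    (hpos : ∀ y v, κ y v ≠ 0) (hfin : ∀ y v, κ y v ≠ ∞)
    (hlc : ∀ a b : ℝ, 0 < a → 0 < b → a + b = 1 → ∀ y v y' v',
      κ y v ^ a * κ y' v' ^ b ≤ κ (a * y + b * y') (a * v + b * v'))
    (heven : ∀ y v, κ (-y) (-v) = κ y v) {l m : ℝ} (hl : 0 < l) (hm : 0 < m) (hlm : l + m = 1)
    (s t : ℝ) :
    (∫⁻ v, κ ((l * s + m * t) * v) v)⁻¹
      ≤ ENNReal.ofReal l * (∫⁻ v, κ (s * v) v)⁻¹ + ENNReal.ofReal m * (∫⁻ v, κ (t * v) v)⁻¹ := by
  have hmeas : ∀ s : ℝ, Measurable (fun v : ℝ => κ (s * v) v) := fun s =>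
    hκ.comp (by fun_prop : Measurable fun v : ℝ => (s * v, v))
  set g : ℝ → ℝ → ℝ≥0∞ := fun s r =>
    if r ∈ Ioi (0 : ℝ) then ENNReal.ofReal ((r ^ 2)⁻¹) * κ (s * r⁻¹) r⁻¹ else 0 with hg
  have hgm : ∀ s, Measurable (g s) := by
    intro s
    refine Measurable.ite measurableSet_Ioi ?_ measurable_const
    exact (by fun_prop : Measurable fun r : ℝ => ENNReal.ofReal ((r ^ 2)⁻¹)).mul
      ((hmeas s).comp measurable_inv)
  have hgi : ∀ s, ∫⁻ r, g s r = ∫⁻ v in Ioi (0 : ℝ), κ (s * v) v := by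
    intro s
    rw [lintegral_inv_Ioi, ← lintegral_indicator measurableSet_Ioi]
    apply lintegral_congr
    intro r
    simp only [hg, indicator_apply]
  have key := bbl (hgm s) (hgm t) (hgm (l * s + m * t)) hl hm ?_
  · rw [hgi, hgi, hgi] at key
    have hev : ∀ s : ℝ, ∫⁻ v, κ (s * v) v = 2 * ∫⁻ v in Ioi (0 : ℝ), κ (s * v) v := by
      intro s
      apply lintegral_even
      intro v
      rw [mul_neg]
      exact heven _ _
    rw [hev, hev, hev]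
    have h2 : ∀ x : ℝ≥0∞, (2 * x)⁻¹ = 2⁻¹ * x⁻¹ := fun x =>
      ENNReal.mul_inv (Or.inl (by norm_num)) (Or.inl (by norm_num))
    rw [h2, h2, h2]
    calc (2 : ℝ≥0∞)⁻¹ * (∫⁻ v in Ioi (0 : ℝ), κ ((l * s + m * t) * v) v)⁻¹
        ≤ 2⁻¹ * (ENNReal.ofReal l * (∫⁻ v in Ioi (0 : ℝ), κ (s * v) v)⁻¹
          + ENNReal.ofReal m * (∫⁻ v in Ioi (0 : ℝ), κ (t * v) v)⁻¹) := mul_le_mul' le_rfl key
      _ = _ := by ring
  · intro x y
    by_cases hx : 0 < x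
    swap
    · have : g s x = 0 := by simp only [hg, mem_Ioi, hx, if_false]
      rw [this, ENNReal.zero_rpow_of_pos (by norm_num), ENNReal.inv_zero,
        ENNReal.mul_top (by simpa using hl), top_add]
      exact le_top
    by_cases hy : 0 < y
    swap
    · have : g t y = 0 := by simp only [hg, mem_Ioi, hy, if_false]
      rw [this, ENNReal.zero_rpow_of_pos (by norm_num), ENNReal.inv_zero,
        ENNReal.mul_top (by simpa using hm), add_top]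
      exact le_top
    set z := l * x + m * y with hz
    have hz0 : 0 < z := by positivity
    have hgx : g s x = ENNReal.ofReal ((x ^ 2)⁻¹) * κ (s * x⁻¹) x⁻¹ := by
      simp only [hg, mem_Ioi, hx, if_true]
    have hgy : g t y = ENNReal.ofReal ((y ^ 2)⁻¹) * κ (t * y⁻¹) y⁻¹ := by
      simp only [hg, mem_Ioi, hy, if_true]
    have hgz : g (l * s + m * t) z
        = ENNReal.ofReal ((z ^ 2)⁻¹) * κ ((l * s + m * t) * z⁻¹) z⁻¹ := by
      simp only [hg, mem_Ioi, hz0, if_true]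
    obtain ⟨A, hA, hAe⟩ : ∃ A : ℝ, 0 < A ∧ κ (s * x⁻¹) x⁻¹ = ENNReal.ofReal A :=
      ⟨_, ENNReal.toReal_pos (hpos _ _) (hfin _ _), (ENNReal.ofReal_toReal (hfin _ _)).symm⟩
    obtain ⟨B, hB, hBe⟩ : ∃ B : ℝ, 0 < B ∧ κ (t * y⁻¹) y⁻¹ = ENNReal.ofReal B :=
      ⟨_, ENNReal.toReal_pos (hpos _ _) (hfin _ _), (ENNReal.ofReal_toReal (hfin _ _)).symm⟩
    obtain ⟨C, hC, hCe⟩ : ∃ C : ℝ, 0 < C ∧ κ ((l * s + m * t) * z⁻¹) z⁻¹ = ENNReal.ofReal C :=
      ⟨_, ENNReal.toReal_pos (hpos _ _) (hfin _ _), (ENNReal.ofReal_toReal (hfin _ _)).symm⟩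
    set a := l * x / z with ha
    set b := m * y / z with hb
    have ha0 : 0 < a := by positivity
    have hb0 : 0 < b := by positivity
    have hab : a + b = 1 := by
      rw [ha, hb, ← add_div, ← hz, div_self hz0.ne']
    have h1 := hlc a b ha0 hb0 hab (s * x⁻¹) x⁻¹ (t * y⁻¹) y⁻¹
    have e1 : a * (s * x⁻¹) + b * (t * y⁻¹) = (l * s + m * t) * z⁻¹ := by
      rw [ha, hb]; field_simp
    have e2 : a * x⁻¹ + b * y⁻¹ = z⁻¹ := by
      have : a * x⁻¹ + b * y⁻¹ = (l + m) * z⁻¹ := by rw [ha, hb]; field_simp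
      rw [this, hlm, one_mul]
    rw [e1, e2, hAe, hBe, hCe, ENNReal.ofReal_rpow_of_pos hA, ENNReal.ofReal_rpow_of_pos hB,
      ← ENNReal.ofReal_mul (by positivity), ENNReal.ofReal_le_ofReal_iff hC.le] at h1
    rw [hgx, hgy, hgz, hAe, hBe, hCe, ← ENNReal.ofReal_mul (by positivity),
      ← ENNReal.ofReal_mul (by positivity), ← ENNReal.ofReal_mul (by positivity),
      ENNReal.ofReal_rpow_of_pos (by positivity), ENNReal.ofReal_rpow_of_pos (by positivity),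
      ENNReal.ofReal_rpow_of_pos (by positivity), ← ENNReal.ofReal_inv_of_pos (by positivity),
      ← ENNReal.ofReal_inv_of_pos (by positivity), ← ENNReal.ofReal_inv_of_pos (by positivity),
      ← ENNReal.ofReal_mul hl.le, ← ENNReal.ofReal_mul hm.le, ← ENNReal.ofReal_add
      (by positivity) (by positivity)]
    apply ENNReal.ofReal_le_ofReal
    have hsq : ∀ {r D : ℝ}, 0 < r → 0 < D →
        (((r ^ 2)⁻¹ * D) ^ (1 / 2 : ℝ))⁻¹ = r * (D ^ (1 / 2 : ℝ))⁻¹ := by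
      intro r D hr hD
      rw [Real.mul_rpow (by positivity) hD.le, Real.inv_rpow (by positivity),
        ← Real.sqrt_eq_rpow, Real.sqrt_sq hr.le, mul_inv, inv_inv]
    rw [hsq hx hA, hsq hy hB, hsq hz0 hC]
    have h2 := Real.geom_mean_le_arith_mean2_weighted ha0.le hb0.le
      (p₁ := (A ^ (1 / 2 : ℝ))⁻¹) (p₂ := (B ^ (1 / 2 : ℝ))⁻¹) (by positivity) (by positivity) hab
    have h3 : (C ^ (1 / 2 : ℝ))⁻¹ ≤ ((A ^ (1 / 2 : ℝ))⁻¹) ^ a * ((B ^ (1 / 2 : ℝ))⁻¹) ^ b := by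
      have e3 : ((A ^ (1 / 2 : ℝ))⁻¹) ^ a * ((B ^ (1 / 2 : ℝ))⁻¹) ^ b
          = ((A ^ a * B ^ b) ^ (1 / 2 : ℝ))⁻¹ := by
        rw [Real.mul_rpow (by positivity) (by positivity), mul_inv,
          Real.inv_rpow (by positivity), Real.inv_rpow (by positivity), ← Real.rpow_mul hA.le,
          ← Real.rpow_mul hA.le, ← Real.rpow_mul hB.le, ← Real.rpow_mul hB.le,
          mul_comm (1 / 2 : ℝ) a, mul_comm (1 / 2 : ℝ) b]
      rw [e3]
      apply inv_anti₀ (by positivity)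
      exact Real.rpow_le_rpow (by positivity) h1 (by norm_num)
    calc z * (C ^ (1 / 2 : ℝ))⁻¹
        ≤ z * (a * (A ^ (1 / 2 : ℝ))⁻¹ + b * (B ^ (1 / 2 : ℝ))⁻¹) :=
          mul_le_mul_of_nonneg_left (h3.trans h2) hz0.le
      _ = l * (x * (A ^ (1 / 2 : ℝ))⁻¹) + m * (y * (B ^ (1 / 2 : ℝ))⁻¹) := by
          rw [ha, hb]; field_simp

end Pool.Agent.Helper67.LB
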