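import Pool.Agent.Helper86.LP.PrekopaLeindler

open Set MeasureTheory Filter Topology
open scoped ENNReal

namespace Pool.Agent.Helper67.LB

open Pool.Agent.Helper86.LP

/-- Level set inequality for normalized functions, with the minimum of the two functions. -/
theorem min_normalized {f g h : ℝ → ℝ} (hf : Measurable f) (hg : Measurable g) (hh : Measurable h)
    (hf0 : ∀ x, 0 ≤ f x) (hg0 : ∀ x, 0 ≤ g x) (hh0 : ∀ x, 0 ≤ h x)
    (hf1 : ∀ x, f x ≤ 1) (hg1 : ∀ x, g x ≤ 1)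
    (hfs : ∀ s < 1, ∃ x, s < f x) (hgs : ∀ s < 1, ∃ x, s < g x)
    {l m : ℝ} (hl : 0 < l) (hm : 0 < m)
    (hfgh : ∀ x y, min (f x) (g y) ≤ h (l * x + m * y)) :
    ENNReal.ofReal l * (∫⁻ x, ENNReal.ofReal (f x))
      + ENNReal.ofReal m * (∫⁻ x, ENNReal.ofReal (g x)) ≤ ∫⁻ x, ENNReal.ofReal (h x) := by
  have cake : ∀ f : ℝ → ℝ, Measurable f → (∀ x, 0 ≤ f x) →
      ∫⁻ x, ENNReal.ofReal (f x) = ∫⁻ t in Ioi (0 : ℝ), volume {x | t < f x} := by
    intro f hf hf0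
    exact lintegral_eq_lintegral_meas_lt volume (Eventually.of_forall hf0) hf.aemeasurable
  have hsplit : ∀ F : ℝ → ℝ≥0∞, ∫⁻ t in Ioi (0 : ℝ), F t
      = (∫⁻ t in Ioo (0 : ℝ) 1, F t) + ∫⁻ t in Ici (1 : ℝ), F t := by
    intro F
    have hd : Disjoint (Ioo (0 : ℝ) 1) (Ici (1 : ℝ)) := by
      rw [Set.disjoint_left]
      intro x hx hx'
      exact absurd hx.2 (not_lt.2 hx')
    rw [← Ioo_union_Ici_eq_Ioi (zero_lt_one' ℝ), lintegral_union measurableSet_Ici hd]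
  have hzero : ∀ f : ℝ → ℝ, (∀ x, f x ≤ 1) →
      ∫⁻ t in Ici (1 : ℝ), volume {x | t < f x} = 0 := by
    intro f hf1
    rw [setLIntegral_congr_fun (g := fun _ => 0) measurableSet_Ici, lintegral_zero]
    intro t ht
    have : {x | t < f x} = ∅ := by
      ext x
      simp only [mem_ofPred_eq, mem_empty_iff_false, iff_false, not_lt]
      exact (hf1 x).trans ht
    simp only [this, measure_empty]
  have hmono : ∀ f : ℝ → ℝ, Measurable (fun t : ℝ => volume {x | t < f x}) := by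
    intro f
    apply Antitone.measurable
    intro s t hst
    apply measure_mono
    intro x hx
    exact lt_of_le_of_lt hst hx
  rw [cake f hf hf0, cake g hg hg0, cake h hh hh0, hsplit, hsplit, hsplit, hzero f hf1,
    hzero g hg1, add_zero, add_zero, ← lintegral_const_mul _ (hmono f),
    ← lintegral_const_mul _ (hmono g), ← lintegral_add_left ((hmono f).const_mul _)]
  refine le_trans ?_ le_self_add
  refine setLIntegral_mono' measurableSet_Ioo ?_
  intro t ht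
  refine volume_weighted_le (measurableSet_lt measurable_const hf)
    (measurableSet_lt measurable_const hg) (hfs t ht.2) (hgs t ht.2) hl hm ?_
  intro x hx y hy
  have hx' : t < f x := hx
  have hy' : t < g y := hy
  exact lt_of_lt_of_le (lt_min hx' hy') (hfgh x y)

/-- Level set inequality for bounded functions. -/
theorem min_bdd {f g h : ℝ → ℝ≥0∞} (hf : Measurable f) (hg : Measurable g) (hh : Measurable h)
    {l m : ℝ} (hl : 0 < l) (hm : 0 < m) {F G K : ℝ≥0∞}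
    (hFdef : F = ⨆ x, f x) (hGdef : G = ⨆ x, g x)
    (hF0 : F ≠ 0) (hF : F ≠ ∞) (hG0 : G ≠ 0) (hG : G ≠ ∞)
    (hfgh : ∀ x y, min (f x / F) (g y / G) ≤ h (l * x + m * y) / K) :
    ENNReal.ofReal l * ((∫⁻ x, f x) / F) + ENNReal.ofReal m * ((∫⁻ x, g x) / G)
      ≤ (∫⁻ x, h x) / K := by
  have hfle : ∀ x, f x / F ≤ 1 := fun x =>
    ENNReal.div_le_of_le_mul (by rw [one_mul, hFdef]; exact le_iSup f x)
  have hgle : ∀ x, g x / G ≤ 1 := fun x =>
    ENNReal.div_le_of_le_mul (by rw [one_mul, hGdef]; exact le_iSup g x)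
  have hft : ∀ x, f x / F ≠ ∞ := fun x => ((hfle x).trans_lt ENNReal.one_lt_top).ne
  have hgt : ∀ x, g x / G ≠ ∞ := fun x => ((hgle x).trans_lt ENNReal.one_lt_top).ne
  have hht : ∀ x, min (h x / K) 1 ≠ ∞ := fun x =>
    ((min_le_right _ _).trans_lt ENNReal.one_lt_top).ne
  have hsup : ∀ (u : ℝ → ℝ≥0∞) (U : ℝ≥0∞), U = (⨆ x, u x) → U ≠ 0 → U ≠ ∞ →
      (∀ x, u x / U ≠ ∞) → ∀ s < (1 : ℝ), ∃ x, s < (u x / U).toReal := by
    intro u U hU hU0 hUt hut s hs
    have h1 : ENNReal.ofReal s * U < U := by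
      have : ENNReal.ofReal s < 1 := by
        rw [← ENNReal.ofReal_one]
        exact (ENNReal.ofReal_lt_ofReal_iff one_pos).2 hs
      calc ENNReal.ofReal s * U < 1 * U := by
            rw [ENNReal.mul_lt_mul_iff_left hU0 hUt]; exact this
        _ = U := one_mul U
    rw [hU] at h1
    obtain ⟨x, hx⟩ := lt_iSup_iff.1 h1
    rw [← hU] at hx
    refine ⟨x, ?_⟩
    have h2 : ENNReal.ofReal s < u x / U := by
      rw [ENNReal.lt_div_iff_mul_lt (Or.inl hU0) (Or.inl hUt)]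
      exact hx
    rcases le_or_gt 0 s with hs0 | hs0
    · exact (ENNReal.ofReal_lt_iff_lt_toReal hs0 (hut x)).1 h2
    · exact hs0.trans_le ENNReal.toReal_nonneg
  have main := min_normalized (f := fun x => (f x / F).toReal) (g := fun x => (g x / G).toReal)
    (h := fun x => (min (h x / K) 1).toReal)
    (hf.div_const F).ennreal_toReal (hg.div_const G).ennreal_toReal
    ((hh.div_const K).min measurable_const).ennreal_toReal
    (fun _ => ENNReal.toReal_nonneg) (fun _ => ENNReal.toReal_nonneg)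
    (fun _ => ENNReal.toReal_nonneg)
    (fun x => ENNReal.toReal_le_of_le_ofReal zero_le_one (by simpa using hfle x))
    (fun x => ENNReal.toReal_le_of_le_ofReal zero_le_one (by simpa using hgle x))
    (hsup f F hFdef hF0 hF hft) (hsup g G hGdef hG0 hG hgt) hl hm ?_
  · simp only [ENNReal.ofReal_toReal (hft _), ENNReal.ofReal_toReal (hgt _),
      ENNReal.ofReal_toReal (hht _)] at main
    have h1 : ∫⁻ x, min (h x / K) 1 ≤ (∫⁻ x, h x) / K := by
      rw [div_eq_mul_inv, ← lintegral_mul_const _ hh]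
      exact lintegral_mono fun x => min_le_left _ _
    have h3 : (∫⁻ x, f x / F) = (∫⁻ x, f x) / F := by
      simp only [div_eq_mul_inv]
      rw [lintegral_mul_const _ hf]
    have h4 : (∫⁻ x, g x / G) = (∫⁻ x, g x) / G := by
      simp only [div_eq_mul_inv]
      rw [lintegral_mul_const _ hg]
    rw [← h3, ← h4]
    exact main.trans h1
  · intro x y
    rw [min_le_iff]
    rcases le_total (f x / F) (g y / G) with hle | hle
    · left
      refine ENNReal.toReal_mono (hht _) (le_min ?_ (hfle x))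
      have := hfgh x y
      rwa [min_eq_left hle] at this
    · right
      refine ENNReal.toReal_mono (hht _) (le_min ?_ (hgle y))
      have := hfgh x y
      rwa [min_eq_right hle] at this

theorem cs_real {a b u v l m : ℝ} (ha : 0 < a) (hb : 0 < b) (hl : 0 < l) (hm : 0 < m) :
    (l * u + m * v) ^ 2 ≤ (l * (a * u ^ 2) + m * (b * v ^ 2)) * (l / a + m / b) := by
  have h1 : (l * (a * u ^ 2) + m * (b * v ^ 2)) * (l / a + m / b) - (l * u + m * v) ^ 2
      = l * m * (a * u - b * v) ^ 2 / (a * b) := by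
    field_simp
    ring
  have h2 : 0 ≤ l * m * (a * u - b * v) ^ 2 / (a * b) := by positivity
  linarith

/-- The one dimensional Borell-Brascamp-Lieb inequality with exponent `-1/2`, for bounded
functions. -/
theorem bbl_bdd {f g h : ℝ → ℝ≥0∞} (hf : Measurable f) (hg : Measurable g) (hh : Measurable h)
    {l m : ℝ} (hl : 0 < l) (hm : 0 < m)
    (hF0 : (⨆ x, f x) ≠ 0) (hF : (⨆ x, f x) ≠ ∞) (hG0 : (⨆ x, g x) ≠ 0) (hG : (⨆ x, g x) ≠ ∞)
    (hfgh : ∀ x y, (h (l * x + m * y) ^ (1 / 2 : ℝ))⁻¹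
      ≤ ENNReal.ofReal l * (f x ^ (1 / 2 : ℝ))⁻¹ + ENNReal.ofReal m * (g y ^ (1 / 2 : ℝ))⁻¹) :
    (∫⁻ x, h x)⁻¹ ≤ ENNReal.ofReal l * (∫⁻ x, f x)⁻¹ + ENNReal.ofReal m * (∫⁻ x, g x)⁻¹ := by
  set F := ⨆ x, f x with hFdef
  set G := ⨆ x, g x with hGdef
  set a := ∫⁻ x, f x with ha
  set b := ∫⁻ x, g x with hb
  set c := ∫⁻ x, h x with hc
  obtain ⟨F', hF', hF'e⟩ : ∃ F' : ℝ, 0 < F' ∧ F = ENNReal.ofReal F' :=
    ⟨F.toReal, ENNReal.toReal_pos hF0 hF, (ENNReal.ofReal_toReal hF).symm⟩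
  obtain ⟨G', hG', hG'e⟩ : ∃ G' : ℝ, 0 < G' ∧ G = ENNReal.ofReal G' :=
    ⟨G.toReal, ENNReal.toReal_pos hG0 hG, (ENNReal.ofReal_toReal hG).symm⟩
  set S' : ℝ := l * (F' ^ (1 / 2 : ℝ))⁻¹ + m * (G' ^ (1 / 2 : ℝ))⁻¹ with hS'
  have hS'pos : 0 < S' := by positivity
  set K : ℝ≥0∞ := ENNReal.ofReal ((S' ^ 2)⁻¹) with hK
  have hK0 : K ≠ 0 := by
    rw [hK]; simp only [ne_eq, ENNReal.ofReal_eq_zero, not_le]; positivity
  have hKt : K ≠ ∞ := ENNReal.ofReal_ne_top
  have main := min_bdd hf hg hh hl hm (K := K) hFdef hGdef hF0 hF hG0 hG ?_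
  · -- conclusion
    rw [← ha, ← hb, ← hc] at main
    have hl0 : ENNReal.ofReal l ≠ 0 := by simpa using hl
    have hm0 : ENNReal.ofReal m ≠ 0 := by simpa using hm
    by_cases ha0 : a = 0
    · rw [ha0, ENNReal.inv_zero, ENNReal.mul_top hl0, top_add]; exact le_top
    by_cases hb0 : b = 0
    · rw [hb0, ENNReal.inv_zero, ENNReal.mul_top hm0, add_top]; exact le_top
    by_cases hat : a = ∞
    · rw [hat, ENNReal.top_div_of_ne_top hF, ENNReal.mul_top hl0, top_add, top_le_iff,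
        ENNReal.div_eq_top] at main
      rcases main with h1 | h1
      · exact absurd h1.2 hK0
      · rw [h1.1, ENNReal.inv_top]; exact bot_le
    by_cases hbt : b = ∞
    · rw [hbt, ENNReal.top_div_of_ne_top hG, ENNReal.mul_top hm0, add_top, top_le_iff,
        ENNReal.div_eq_top] at main
      rcases main with h1 | h1
      · exact absurd h1.2 hK0
      · rw [h1.1, ENNReal.inv_top]; exact bot_le
    obtain ⟨a', ha', ha'e⟩ : ∃ a' : ℝ, 0 < a' ∧ a = ENNReal.ofReal a' :=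
      ⟨a.toReal, ENNReal.toReal_pos ha0 hat, (ENNReal.ofReal_toReal hat).symm⟩
    obtain ⟨b', hb', hb'e⟩ : ∃ b' : ℝ, 0 < b' ∧ b = ENNReal.ofReal b' :=
      ⟨b.toReal, ENNReal.toReal_pos hb0 hbt, (ENNReal.ofReal_toReal hbt).symm⟩
    rw [ENNReal.le_div_iff_mul_le (Or.inl hK0) (Or.inl hKt)] at main
    rw [ha'e, hb'e, hF'e, hG'e, ← ENNReal.ofReal_div_of_pos hF', ← ENNReal.ofReal_div_of_pos hG',
      ← ENNReal.ofReal_mul hl.le, ← ENNReal.ofReal_mul hm.le, ← ENNReal.ofReal_add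
      (by positivity) (by positivity), hK, ← ENNReal.ofReal_mul (by positivity)] at main
    rw [ha'e, hb'e, ← ENNReal.ofReal_inv_of_pos ha', ← ENNReal.ofReal_inv_of_pos hb',
      ← ENNReal.ofReal_mul hl.le, ← ENNReal.ofReal_mul hm.le, ← ENNReal.ofReal_add
      (by positivity) (by positivity)]
    have hpos : 0 < (l * (a' / F') + m * (b' / G')) * (S' ^ 2)⁻¹ := by positivity
    refine (ENNReal.inv_le_inv.2 main).trans ?_
    rw [← ENNReal.ofReal_inv_of_pos hpos]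
    apply ENNReal.ofReal_le_ofReal
    rw [inv_le_iff_one_le_mul₀ hpos]
    have h2 := cs_real (a := a') (b := b') (u := (F' ^ (1 / 2 : ℝ))⁻¹)
      (v := (G' ^ (1 / 2 : ℝ))⁻¹) ha' hb' hl hm
    have e1 : ((F' ^ (1 / 2 : ℝ))⁻¹) ^ 2 = F'⁻¹ := by
      rw [inv_pow, ← Real.sqrt_eq_rpow, Real.sq_sqrt hF'.le]
    have e2 : ((G' ^ (1 / 2 : ℝ))⁻¹) ^ 2 = G'⁻¹ := by
      rw [inv_pow, ← Real.sqrt_eq_rpow, Real.sq_sqrt hG'.le]
    rw [e1, e2, ← hS'] at h2
    have h3 : (l * a'⁻¹ + m * b'⁻¹) * ((l * (a' / F') + m * (b' / G')) * (S' ^ 2)⁻¹)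
        = ((l * (a' * F'⁻¹) + m * (b' * G'⁻¹)) * (l / a' + m / b')) / S' ^ 2 := by
      simp only [div_eq_mul_inv]
      ring
    rw [h3, one_le_div (by positivity)]
    exact h2
  · intro x y
    set t := min (f x / F) (g y / G) with ht
    by_cases ht0 : t = 0
    · rw [ht0]; exact bot_le
    have htf : t * F ≤ f x := by
      have : t ≤ f x / F := min_le_left _ _
      rwa [ENNReal.le_div_iff_mul_le (Or.inl hF0) (Or.inl hF)] at this
    have htg : t * G ≤ g y := by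
      have : t ≤ g y / G := min_le_right _ _
      rwa [ENNReal.le_div_iff_mul_le (Or.inl hG0) (Or.inl hG)] at this
    have ht1 : t ≤ 1 := (min_le_left _ _).trans (ENNReal.div_le_of_le_mul (by
      rw [one_mul]; exact le_iSup f x))
    have htt : t ≠ ∞ := (ht1.trans_lt ENNReal.one_lt_top).ne
    obtain ⟨t', ht', ht'e⟩ : ∃ t' : ℝ, 0 < t' ∧ t = ENNReal.ofReal t' :=
      ⟨t.toReal, ENNReal.toReal_pos ht0 htt, (ENNReal.ofReal_toReal htt).symm⟩
    have h1 : (h (l * x + m * y) ^ (1 / 2 : ℝ))⁻¹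
        ≤ ENNReal.ofReal l * ((t * F) ^ (1 / 2 : ℝ))⁻¹
          + ENNReal.ofReal m * ((t * G) ^ (1 / 2 : ℝ))⁻¹ := by
      refine (hfgh x y).trans (add_le_add ?_ ?_)
      · exact mul_le_mul' le_rfl (ENNReal.inv_le_inv.2 (ENNReal.rpow_le_rpow htf (by norm_num)))
      · exact mul_le_mul' le_rfl (ENNReal.inv_le_inv.2 (ENNReal.rpow_le_rpow htg (by norm_num)))
    rw [ht'e, hF'e, hG'e, ← ENNReal.ofReal_mul ht'.le, ← ENNReal.ofReal_mul ht'.le,
      ENNReal.ofReal_rpow_of_pos (by positivity), ENNReal.ofReal_rpow_of_pos (by positivity),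
      ← ENNReal.ofReal_inv_of_pos (by positivity), ← ENNReal.ofReal_inv_of_pos (by positivity),
      ← ENNReal.ofReal_mul hl.le, ← ENNReal.ofReal_mul hm.le, ← ENNReal.ofReal_add
      (by positivity) (by positivity)] at h1
    have e3 : l * ((t' * F') ^ (1 / 2 : ℝ))⁻¹ + m * ((t' * G') ^ (1 / 2 : ℝ))⁻¹
        = (t' ^ (1 / 2 : ℝ))⁻¹ * S' := by
      rw [Real.mul_rpow ht'.le hF'.le, Real.mul_rpow ht'.le hG'.le, hS', mul_inv, mul_inv]
      ring
    rw [e3] at h1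
    have h2 := ENNReal.inv_le_inv.2 h1
    rw [inv_inv, ← ENNReal.ofReal_inv_of_pos (by positivity)] at h2
    have h3 : ENNReal.ofReal (t' * (S' ^ 2)⁻¹) ≤ h (l * x + m * y) := by
      have h4 := ENNReal.rpow_le_rpow h2 (show (0 : ℝ) ≤ 2 by norm_num)
      rw [← ENNReal.rpow_mul, ENNReal.ofReal_rpow_of_pos (by positivity)] at h4
      norm_num at h4
      refine le_trans (ENNReal.ofReal_le_ofReal (le_of_eq ?_)) h4
      rw [mul_pow, ← Real.sqrt_eq_rpow, Real.sq_sqrt ht'.le, inv_pow]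
      ring
    rw [ht'e, hK, ENNReal.le_div_iff_mul_le (Or.inl (by rw [← hK]; exact hK0))
      (Or.inl (by rw [← hK]; exact hKt)), ← ENNReal.ofReal_mul ht'.le]
    exact h3

/-- The one dimensional Borell-Brascamp-Lieb inequality with exponent `-1/2`. -/
theorem bbl {f g h : ℝ → ℝ≥0∞} (hf : Measurable f) (hg : Measurable g) (hh : Measurable h)
    {l m : ℝ} (hl : 0 < l) (hm : 0 < m)
    (hfgh : ∀ x y, (h (l * x + m * y) ^ (1 / 2 : ℝ))⁻¹
      ≤ ENNReal.ofReal l * (f x ^ (1 / 2 : ℝ))⁻¹ + ENNReal.ofReal m * (g y ^ (1 / 2 : ℝ))⁻¹) :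
    (∫⁻ x, h x)⁻¹ ≤ ENNReal.ofReal l * (∫⁻ x, f x)⁻¹ + ENNReal.ofReal m * (∫⁻ x, g x)⁻¹ := by
  have hl0 : ENNReal.ofReal l ≠ 0 := by simpa using hl
  have hm0 : ENNReal.ofReal m ≠ 0 := by simpa using hm
  by_cases hf0 : (∫⁻ x, f x) = 0
  · rw [hf0, ENNReal.inv_zero, ENNReal.mul_top hl0, top_add]; exact le_top
  by_cases hg0 : (∫⁻ x, g x) = 0
  · rw [hg0, ENNReal.inv_zero, ENNReal.mul_top hm0, add_top]; exact le_top
  have hlim : ∀ u : ℝ → ℝ≥0∞, Measurable u →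
      Tendsto (fun n : ℕ => ∫⁻ x, min (u x) (n : ℝ≥0∞)) atTop (𝓝 (∫⁻ x, u x)) := by
    intro u hu
    apply lintegral_tendsto_of_tendsto_of_monotone
    · exact fun n => (hu.min measurable_const).aemeasurable
    · refine Eventually.of_forall fun x => ?_
      intro a b hab
      exact min_le_min le_rfl (by exact_mod_cast hab)
    · refine Eventually.of_forall fun x => ?_
      have h1 : Tendsto (fun n : ℕ => min (u x) (n : ℝ≥0∞)) atTop (𝓝 (min (u x) ∞)) :=
        tendsto_const_nhds.min ENNReal.tendsto_nat_nhds_top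
      simpa using h1
  have hne : ∀ u : ℝ → ℝ≥0∞, (∫⁻ x, u x) ≠ 0 → ∀ n : ℕ, 1 ≤ n →
      (⨆ x, min (u x) (n : ℝ≥0∞)) ≠ 0 := by
    intro u hu n hn h0
    apply hu
    have h1 : ∀ x, u x = 0 := by
      intro x
      have h2 : min (u x) (n : ℝ≥0∞) = 0 := (ENNReal.iSup_eq_zero.1 h0) x
      rcases min_choice (u x) (n : ℝ≥0∞) with h3 | h3
      · rw [← h3]; exact h2
      · rw [h3] at h2
        have : (n : ℝ≥0∞) ≠ 0 := by
          have : n ≠ 0 := by omega
          exact_mod_cast this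
        exact absurd h2 this
    simp [h1]
  have hnt : ∀ (u : ℝ → ℝ≥0∞) (n : ℕ), (⨆ x, min (u x) (n : ℝ≥0∞)) ≠ ∞ := by
    intro u n
    refine ((iSup_le fun x => min_le_right _ _).trans_lt (ENNReal.natCast_lt_top n)).ne
  have hn : ∀ n : ℕ, 1 ≤ n → (∫⁻ x, h x)⁻¹
      ≤ ENNReal.ofReal l * (∫⁻ x, min (f x) (n : ℝ≥0∞))⁻¹
        + ENNReal.ofReal m * (∫⁻ x, min (g x) (n : ℝ≥0∞))⁻¹ := by
    intro n hn
    refine bbl_bdd (hf.min measurable_const) (hg.min measurable_const) hh hl hm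
      (hne f hf0 n hn) (hnt f n) (hne g hg0 n hn) (hnt g n) ?_
    intro x y
    refine (hfgh x y).trans (add_le_add ?_ ?_)
    · exact mul_le_mul' le_rfl (ENNReal.inv_le_inv.2
        (ENNReal.rpow_le_rpow (min_le_left _ _) (by norm_num)))
    · exact mul_le_mul' le_rfl (ENNReal.inv_le_inv.2
        (ENNReal.rpow_le_rpow (min_le_left _ _) (by norm_num)))
  have htend : Tendsto (fun n : ℕ => ENNReal.ofReal l * (∫⁻ x, min (f x) (n : ℝ≥0∞))⁻¹
        + ENNReal.ofReal m * (∫⁻ x, min (g x) (n : ℝ≥0∞))⁻¹) atTop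
      (𝓝 (ENNReal.ofReal l * (∫⁻ x, f x)⁻¹ + ENNReal.ofReal m * (∫⁻ x, g x)⁻¹)) := by
    refine Tendsto.add ?_ ?_
    · exact ENNReal.Tendsto.const_mul (tendsto_inv_iff.2 (hlim f hf))
        (Or.inr ENNReal.ofReal_ne_top)
    · exact ENNReal.Tendsto.const_mul (tendsto_inv_iff.2 (hlim g hg))
        (Or.inr ENNReal.ofReal_ne_top)
  exact ge_of_tendsto htend (eventually_atTop.2 ⟨1, hn⟩)

end Pool.Agent.Helper67.LB
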