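import Pool.Agent.Helper67.LB.Rho

open Set MeasureTheory Filter Topology
open scoped ENNReal

namespace Pool.Agent.Helper67.LB

theorem lintegral_affine {g : ℝ → ℝ≥0∞} (hg : Measurable g) {d : ℝ} (hd : d ≠ 0) (b : ℝ) :
    ∫⁻ u, g u = ENNReal.ofReal |d|⁻¹ * ∫⁻ v, g ((v - b) / d) := by
  have h1 : ∫⁻ v, g ((v - b) / d) = ∫⁻ v, g (v / d) :=
    lintegral_sub_right_eq_self (fun v => g (v / d)) b
  have h2 : ∫⁻ v, g (v / d) = ENNReal.ofReal |d| * ∫⁻ u, g u := by
    have h3 := lintegral_map (μ := (volume : Measure ℝ)) hg (measurable_const_mul d⁻¹)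
    rw [Real.map_volume_mul_left (inv_ne_zero hd), lintegral_smul_measure, inv_inv,
      smul_eq_mul] at h3
    rw [h3]
    apply lintegral_congr
    intro v
    rw [div_eq_inv_mul]
  rw [h1, h2, ← mul_assoc, ← ENNReal.ofReal_mul (by positivity),
    inv_mul_cancel₀ (abs_ne_zero.2 hd), ENNReal.ofReal_one, one_mul]

/-- The parametrisation of the hyperplanes `∑ d_j x_j = v`. -/
noncomputable def sl {k : ℕ} (i : Fin (k + 1)) (d : Fin (k + 1) → ℝ) (v : ℝ) (x : Fin k → ℝ) :
    Fin (k + 1) → ℝ :=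
  i.insertNth ((v - ∑ j, d (i.succAbove j) * x j) / d i) x

variable {k : ℕ} (i : Fin (k + 1)) (d : Fin (k + 1) → ℝ)

theorem sl_same (v : ℝ) (x : Fin k → ℝ) :
    sl i d v x i = (v - ∑ j, d (i.succAbove j) * x j) / d i := by
  simp [sl]

theorem sl_succAbove (v : ℝ) (x : Fin k → ℝ) (j : Fin k) :
    sl i d v x (i.succAbove j) = x j := by
  simp [sl]

theorem sl_lin (a b v v' : ℝ) (x x' : Fin k → ℝ) :
    sl i d (a * v + b * v') (a • x + b • x') = a • sl i d v x + b • sl i d v' x' := by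
  funext j
  rcases Fin.eq_self_or_eq_succAbove i j with rfl | ⟨j, rfl⟩
  · simp only [Pi.add_apply, Pi.smul_apply, sl_same, smul_eq_mul]
    have : ∑ x_1, d (j.succAbove x_1) * (a * x x_1 + b * x' x_1)
        = a * ∑ x_1, d (j.succAbove x_1) * x x_1 + b * ∑ x_1, d (j.succAbove x_1) * x' x_1 := by
      rw [Finset.mul_sum, Finset.mul_sum, ← Finset.sum_add_distrib]
      exact Finset.sum_congr rfl fun _ _ => by ring
    rw [this]
    ring
  · simp only [Pi.add_apply, Pi.smul_apply, sl_succAbove]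

theorem sl_neg (v : ℝ) (x : Fin k → ℝ) : sl i d (-v) (-x) = - sl i d v x := by
  have := sl_lin i d (-1) 0 v 0 x 0
  simpa using this

theorem sum_sl (hd : d i ≠ 0) (v : ℝ) (x : Fin k → ℝ) : ∑ j, d j * sl i d v x j = v := by
  rw [Fin.sum_univ_succAbove _ i]
  simp only [sl_same, sl_succAbove]
  rw [mul_div_cancel₀ _ hd]
  ring

theorem W_sl_le (q : ℝ) (v : ℝ) (x : Fin k → ℝ) : W q (sl i d v x) ≤ W q x := by
  unfold sl
  rw [W_insertNth]
  calc _ ≤ 1 * W q x := mul_le_mul' (rho_le_one _ _) le_rfl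
    _ = W q x := one_mul _

theorem measurable_sl : Measurable (fun z : ℝ × (Fin k → ℝ) => sl i d z.1 z.2) := by
  unfold sl
  have h : Measurable (fun z : ℝ × (Fin k → ℝ) =>
      (((z.1 - ∑ j, d (i.succAbove j) * z.2 j) / d i, z.2) : ℝ × (Fin k → ℝ))) := by
    fun_prop
  exact (measurable_insertNth i).comp h

theorem lintegral_sl (hd : d i ≠ 0) {f : (Fin (k + 1) → ℝ) → ℝ≥0∞} (hf : Measurable f) :
    ∫⁻ x, f x = ENNReal.ofReal |d i|⁻¹ * ∫⁻ v : ℝ, ∫⁻ x' : Fin k → ℝ, f (sl i d v x') := by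
  have hm1 : Measurable (fun z : ℝ × (Fin k → ℝ) => f (i.insertNth z.1 z.2)) :=
    hf.comp (measurable_insertNth i)
  have hm2 : Measurable (fun z : ℝ × (Fin k → ℝ) => f (sl i d z.1 z.2)) :=
    hf.comp (measurable_sl i d)
  rw [lintegral_cons hf i, lintegral_lintegral_swap (f := fun v x' => f (i.insertNth v x'))
    hm1.aemeasurable]
  rw [lintegral_lintegral_swap (f := fun v x' => f (sl i d v x')) hm2.aemeasurable,
    ← lintegral_const_mul _ (by exact hm2.lintegral_prod_left')]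
  apply lintegral_congr
  intro x'
  have hg : Measurable (fun u : ℝ => f (i.insertNth u x')) :=
    hm1.comp (measurable_prodMk_right)
  exact lintegral_affine hg hd _

/-- The function of two variables whose integrals over lines give the main integral. -/
noncomputable def kap (q : ℝ) (p : Fin (k + 1) → ℝ) (y v : ℝ) : ℝ≥0∞ :=
  ∫⁻ x' : Fin k → ℝ, rho q (∑ j, p j * sl i d v x' j + y) * W q (sl i d v x')

theorem measurable_kap_integrand (q : ℝ) (p : Fin (k + 1) → ℝ) :
    Measurable (fun z : (ℝ × ℝ) × (Fin k → ℝ) =>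
      rho q (∑ j, p j * sl i d z.1.2 z.2 j + z.1.1) * W q (sl i d z.1.2 z.2)) := by
  have h1 : Measurable (fun z : (ℝ × ℝ) × (Fin k → ℝ) => sl i d z.1.2 z.2) :=
    (measurable_sl i d).comp (by fun_prop : Measurable fun z : (ℝ × ℝ) × (Fin k → ℝ) =>
      ((z.1.2, z.2) : ℝ × (Fin k → ℝ)))
  refine Measurable.mul ((measurable_rho q).comp ?_) ((measurable_W q).comp h1)
  refine Measurable.add ?_ (by fun_prop)
  refine Finset.measurable_sum _ fun j _ => ?_
  exact ((measurable_pi_apply j).comp h1).const_mul _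

theorem measurable_kap (q : ℝ) (p : Fin (k + 1) → ℝ) :
    Measurable (Function.uncurry (kap i d q p)) :=
  Measurable.lintegral_prod_right' (measurable_kap_integrand i d q p)

theorem measurable_kap_slice (q : ℝ) (p : Fin (k + 1) → ℝ) (y v : ℝ) :
    Measurable (fun x' : Fin k → ℝ =>
      rho q (∑ j, p j * sl i d v x' j + y) * W q (sl i d v x')) := by
  have h1 : Measurable (fun x' : Fin k → ℝ => sl i d v x') := by
    have h2 : Measurable (fun x' : Fin k → ℝ => ((v, x') : ℝ × (Fin k → ℝ))) :=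
      measurable_prodMk_left
    exact (measurable_sl i d).comp h2
  refine Measurable.mul ((measurable_rho q).comp ?_) ((measurable_W q).comp h1)
  refine Measurable.add ?_ measurable_const
  refine Finset.measurable_sum _ fun j _ => ?_
  exact ((measurable_pi_apply j).comp h1).const_mul _

theorem kap_ne_zero (q : ℝ) (p : Fin (k + 1) → ℝ) (y v : ℝ) : kap i d q p y v ≠ 0 :=
  lintegral_ne_zero_of_pos (measurable_kap_slice i d q p y v) fun _ =>
    mul_ne_zero (rho_ne_zero _ _) (W_ne_zero _ _)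

theorem kap_ne_top {q : ℝ} (hq : 1 ≤ q) (p : Fin (k + 1) → ℝ) (y v : ℝ) :
    kap i d q p y v ≠ ∞ := by
  refine ((lintegral_mono fun x => ?_).trans_lt (lt_top_iff_ne_top.2
    (lintegral_W_ne_top (k := k) hq))).ne
  calc _ ≤ 1 * W q x := mul_le_mul' (rho_le_one _ _) (W_sl_le i d q v x)
    _ = W q x := one_mul _

theorem kap_lc {q : ℝ} (hq : 1 ≤ q) (p : Fin (k + 1) → ℝ) {a b : ℝ} (ha : 0 < a) (hb : 0 < b)
    (hab : a + b = 1) (y v y' v' : ℝ) :
    kap i d q p y v ^ a * kap i d q p y' v' ^ b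
      ≤ kap i d q p (a * y + b * y') (a * v + b * v') := by
  refine pl_pi k (measurable_kap_slice i d q p y v) (measurable_kap_slice i d q p y' v')
    (measurable_kap_slice i d q p _ _) ha hb hab ?_
  intro x x'
  rw [ENNReal.mul_rpow_of_nonneg _ _ ha.le, ENNReal.mul_rpow_of_nonneg _ _ hb.le,
    mul_mul_mul_comm, sl_lin]
  refine mul_le_mul' ((rho_lc hq ha hb hab _ _).trans (le_of_eq ?_)) (W_lc hq ha hb hab _ _)
  congr 1
  have : ∑ j, p j * (a • sl i d v x + b • sl i d v' x') j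
      = a * ∑ j, p j * sl i d v x j + b * ∑ j, p j * sl i d v' x' j := by
    rw [Finset.mul_sum, Finset.mul_sum, ← Finset.sum_add_distrib]
    refine Finset.sum_congr rfl fun j _ => ?_
    simp only [Pi.add_apply, Pi.smul_apply, smul_eq_mul]
    ring
  rw [this]
  ring

theorem lintegral_neg_pi (f : (Fin k → ℝ) → ℝ≥0∞) : ∫⁻ x, f (-x) = ∫⁻ x, f x := by
  exact lintegral_neg_eq_self f

theorem kap_even (q : ℝ) (p : Fin (k + 1) → ℝ) (y v : ℝ) :
    kap i d q p (-y) (-v) = kap i d q p y v := by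
  unfold kap
  rw [← lintegral_neg_pi]
  apply lintegral_congr
  intro x
  rw [sl_neg, W_neg]
  congr 1
  rw [← rho_neg]
  congr 1
  simp only [Pi.neg_apply, mul_neg, Finset.sum_neg_distrib]
  ring

theorem J_line (q : ℝ) (hd : d i ≠ 0) (p : Fin (k + 1) → ℝ) (s : ℝ) :
    J q (p + s • d) = ENNReal.ofReal |d i|⁻¹ * ∫⁻ v, kap i d q p (s * v) v := by
  unfold J
  rw [lintegral_sl i d hd (measurable_J_integrand q _)]
  congr 1
  apply lintegral_congr
  intro v
  apply lintegral_congr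
  intro x'
  congr 2
  have : ∀ x : Fin (k + 1) → ℝ, ∑ j, (p + s • d) j * x j = ∑ j, p j * x j + s * ∑ j, d j * x j := by
    intro x
    rw [Finset.mul_sum, ← Finset.sum_add_distrib]
    refine Finset.sum_congr rfl fun j _ => ?_
    simp only [Pi.add_apply, Pi.smul_apply, smul_eq_mul]
    ring
  rw [this, sum_sl i d hd]

omit i d in
/-- Busemann's inequality for the functions `exp (-|x|_q^q)`. -/
theorem J_inv_convex {q : ℝ} (hq : 1 ≤ q) (p r : Fin k → ℝ) {l m : ℝ} (hl : 0 < l) (hm : 0 < m)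
    (hlm : l + m = 1) :
    (J q (l • p + m • r))⁻¹ ≤ ENNReal.ofReal l * (J q p)⁻¹ + ENNReal.ofReal m * (J q r)⁻¹ := by
  by_cases hpr : p = r
  · subst hpr
    rw [← add_smul, hlm, one_smul, ← add_mul, ← ENNReal.ofReal_add hl.le hm.le, hlm,
      ENNReal.ofReal_one, one_mul]
  · obtain ⟨i, hi⟩ := Function.ne_iff.1 hpr
    cases k with
    | zero => exact i.elim0
    | succ k =>
      set d := r - p with hd
      have hdi : d i ≠ 0 := by
        rw [hd, Pi.sub_apply]
        exact sub_ne_zero.2 (Ne.symm hi)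
      have e0 : J q p = ENNReal.ofReal |d i|⁻¹ * ∫⁻ v, kap i d q p (0 * v) v := by
        rw [← J_line i d q hdi p 0, zero_smul, add_zero]
      have e1 : J q r = ENNReal.ofReal |d i|⁻¹ * ∫⁻ v, kap i d q p (1 * v) v := by
        rw [← J_line i d q hdi p 1, one_smul, hd, add_sub_cancel]
      have e2 : J q (l • p + m • r)
          = ENNReal.ofReal |d i|⁻¹ * ∫⁻ v, kap i d q p ((l * 0 + m * 1) * v) v := by
        rw [← J_line i d q hdi p _]
        congr 1
        have hl' : l = 1 - m := by linarith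
        rw [hd, hl']
        module
      have key := busemann_two (measurable_kap i d q p) (kap_ne_zero i d q p)
        (kap_ne_top i d hq p) (fun a b ha hb hab y v y' v' => kap_lc i d hq p ha hb hab y v y' v')
        (kap_even i d q p) hl hm hlm 0 1
      set C := ENNReal.ofReal |d i|⁻¹ with hC
      have hC0 : C ≠ 0 := (ENNReal.ofReal_pos.2 (by positivity)).ne'
      have hCt : C ≠ ∞ := ENNReal.ofReal_ne_top
      rw [e0, e1, e2, ENNReal.mul_inv (Or.inl hC0) (Or.inl hCt),
        ENNReal.mul_inv (Or.inl hC0) (Or.inl hCt), ENNReal.mul_inv (Or.inl hC0) (Or.inl hCt)]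
      calc _ ≤ C⁻¹ * (ENNReal.ofReal l * (∫⁻ v, kap i d q p (0 * v) v)⁻¹
            + ENNReal.ofReal m * (∫⁻ v, kap i d q p (1 * v) v)⁻¹) := mul_le_mul' le_rfl key
        _ = _ := by ring

end Pool.Agent.Helper67.LB
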