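import Pool.Agent.Helper67.LB.Mono

open Set MeasureTheory Filter Topology
open scoped ENNReal

namespace Pool.Agent.Helper67.LB

variable {k : ℕ}

theorem J_geo {q : ℝ} (hq : 1 ≤ q) (c : Fin k → ℝ) {l m : ℝ} (hl : 0 < l) (hm : 0 < m)
    (hlm : l + m = 1) (s s' : Fin k → ℝ) :
    J q (fun j => c j * Real.exp (s j)) ^ l * J q (fun j => c j * Real.exp (s' j)) ^ m
      ≤ J q (fun j => c j * Real.exp (l * s j + m * s' j)) := by
  set P : Fin k → ℝ := fun j => c j * Real.exp (s j) with hP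
  set R : Fin k → ℝ := fun j => c j * Real.exp (s' j) with hR
  set Q : Fin k → ℝ := fun j => c j * Real.exp (l * s j + m * s' j) with hQ
  obtain ⟨A, hA, hAe⟩ : ∃ A : ℝ, 0 < A ∧ J q P = ENNReal.ofReal A :=
    ⟨_, ENNReal.toReal_pos (J_ne_zero _ _) (J_ne_top hq _),
      (ENNReal.ofReal_toReal (J_ne_top hq _)).symm⟩
  obtain ⟨B, hB, hBe⟩ : ∃ B : ℝ, 0 < B ∧ J q R = ENNReal.ofReal B :=
    ⟨_, ENNReal.toReal_pos (J_ne_zero _ _) (J_ne_top hq _),
      (ENNReal.ofReal_toReal (J_ne_top hq _)).symm⟩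
  set α := l * A + m * B with hα
  have hα0 : 0 < α := by positivity
  set β := A ^ l * B ^ m with hβ
  have hβ0 : 0 < β := by positivity
  have hAG : β ≤ α := Real.geom_mean_le_arith_mean2_weighted hl.le hm.le hA.le hB.le hlm
  have hsum : l * A / α + m * B / α = 1 := by
    rw [← add_div, ← hα, div_self hα0.ne']
  have key := J_inv_convex hq P R (l := l * A / α) (m := m * B / α) (by positivity)
    (by positivity) hsum
  rw [hAe, hBe, ← ENNReal.ofReal_inv_of_pos hA, ← ENNReal.ofReal_inv_of_pos hB,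
    ← ENNReal.ofReal_mul (by positivity), ← ENNReal.ofReal_mul (by positivity),
    ← ENNReal.ofReal_add (by positivity) (by positivity)] at key
  have e1 : l * A / α * A⁻¹ + m * B / α * B⁻¹ = α⁻¹ := by
    have : l * A / α * A⁻¹ + m * B / α * B⁻¹ = (l + m) / α := by field_simp
    rw [this, hlm, one_div]
  rw [e1, ENNReal.ofReal_inv_of_pos hα0, ENNReal.inv_le_inv] at key
  set t := α / β with ht
  have ht1 : 1 ≤ t := (one_le_div hβ0).2 hAG
  set Z : Fin k → ℝ := fun j => β⁻¹ * (l * A * P j + m * B * R j) with hZ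
  have e2 : (l * A / α) • P + (m * B / α) • R = t⁻¹ • Z := by
    funext j
    simp only [Pi.add_apply, Pi.smul_apply, smul_eq_mul, hZ, ht]
    field_simp
  rw [e2] at key
  have h3 := key.trans (J_scale hq Z ht1)
  have h4 : J q Z ≤ J q Q := by
    apply J_anti hq
    intro j
    simp only [hQ, hZ, hP, hR]
    have e3 : β⁻¹ * (l * A * (c j * Real.exp (s j)) + m * B * (c j * Real.exp (s' j)))
        = c j * (β⁻¹ * (l * (A * Real.exp (s j)) + m * (B * Real.exp (s' j)))) := by ring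
    rw [e3, abs_mul, abs_mul]
    apply mul_le_mul_of_nonneg_left _ (abs_nonneg _)
    rw [abs_of_pos (Real.exp_pos _), abs_of_pos (by positivity), inv_mul_eq_div,
      le_div_iff₀ hβ0]
    have h5 := Real.geom_mean_le_arith_mean2_weighted hl.le hm.le
      (p₁ := A * Real.exp (s j)) (p₂ := B * Real.exp (s' j)) (by positivity) (by positivity) hlm
    have e4 : Real.exp (l * s j + m * s' j) * β
        = (A * Real.exp (s j)) ^ l * (B * Real.exp (s' j)) ^ m := by
      rw [Real.mul_rpow hA.le (Real.exp_pos _).le, Real.mul_rpow hB.le (Real.exp_pos _).le,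
        ← Real.exp_mul, ← Real.exp_mul, Real.exp_add, hβ, mul_comm l, mul_comm m]
      ring
    rw [e4]
    exact h5
  have h6 : ENNReal.ofReal α ≤ ENNReal.ofReal t * J q Q := h3.trans (mul_le_mul' le_rfl h4)
  rw [hAe, hBe, ENNReal.ofReal_rpow_of_pos hA, ENNReal.ofReal_rpow_of_pos hB,
    ← ENNReal.ofReal_mul (by positivity), ← hβ]
  have ht0 : 0 < t := by positivity
  have e5 : β = t⁻¹ * α := by rw [ht]; field_simp
  calc ENNReal.ofReal β = ENNReal.ofReal t⁻¹ * ENNReal.ofReal α := by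
        rw [← ENNReal.ofReal_mul (by positivity), ← e5]
    _ ≤ ENNReal.ofReal t⁻¹ * (ENNReal.ofReal t * J q Q) := mul_le_mul' le_rfl h6
    _ = J q Q := by
        rw [← mul_assoc, ← ENNReal.ofReal_mul (by positivity), inv_mul_cancel₀ ht0.ne',
          ENNReal.ofReal_one, one_mul]

/-- The integral with weights. -/
noncomputable def Psi (q : ℝ) (c : Fin k → ℝ) (j0 : Fin (k + 1)) (σ : Fin (k + 1) → ℝ) : ℝ≥0∞ :=
  ∫⁻ z : Fin k → ℝ, ENNReal.ofReal (Real.exp (-(Real.exp (σ j0) * |∑ j, c j * z j| ^ q)))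
    * ∏ j, ENNReal.ofReal (Real.exp (-(Real.exp (σ (j0.succAbove j)) * |z j| ^ q)))

theorem rho_exp {q : ℝ} (hq : 0 < q) (σ y : ℝ) :
    ENNReal.ofReal (Real.exp (-(Real.exp σ * |y| ^ q))) = rho q (Real.exp (σ / q) * y) := by
  unfold rho
  rw [abs_mul, Real.mul_rpow (abs_nonneg _) (abs_nonneg _), abs_of_pos (Real.exp_pos _),
    ← Real.exp_mul, div_mul_cancel₀ _ hq.ne']

theorem lintegral_diag {f : (Fin k → ℝ) → ℝ≥0∞} (hf : Measurable f) {w : Fin k → ℝ}
    (hw : ∀ j, 0 < w j) :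
    ∫⁻ z : Fin k → ℝ, f (fun j => w j * z j) = ENNReal.ofReal (∏ j, w j)⁻¹ * ∫⁻ x, f x := by
  have hdet : (Matrix.diagonal w).det = ∏ j, w j := Matrix.det_diagonal
  have hpos : 0 < ∏ j, w j := Finset.prod_pos fun j _ => hw j
  have h1 := Real.map_matrix_volume_pi_eq_smul_volume_pi (M := Matrix.diagonal w)
    (by rw [hdet]; exact hpos.ne')
  have h2 := lintegral_map (μ := (volume : Measure (Fin k → ℝ))) hf
    (show Measurable (Matrix.toLin' (Matrix.diagonal w)) from
      (LinearMap.continuous_of_finiteDimensional _).measurable)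
  rw [h1, lintegral_smul_measure, hdet, smul_eq_mul, abs_of_pos (inv_pos.2 hpos)] at h2
  rw [h2]
  apply lintegral_congr
  intro z
  congr 1
  funext j
  rw [Matrix.toLin'_apply, Matrix.mulVec_diagonal]

theorem Psi_eq {q : ℝ} (hq : 1 ≤ q) (c : Fin k → ℝ) (j0 : Fin (k + 1)) (σ : Fin (k + 1) → ℝ) :
    Psi q c j0 σ = ENNReal.ofReal (Real.exp (-∑ j, σ (j0.succAbove j) / q))
      * J q (fun j => c j * Real.exp ((σ j0 - σ (j0.succAbove j)) / q)) := by
  have hq0 : 0 < q := by linarith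
  have h := lintegral_diag (measurable_J_integrand q
    (fun j => c j * Real.exp ((σ j0 - σ (j0.succAbove j)) / q)))
    (w := fun j => Real.exp (σ (j0.succAbove j) / q)) (fun j => Real.exp_pos _)
  rw [← Real.exp_sum, ← Real.exp_neg] at h
  unfold J
  rw [← h]
  unfold Psi
  apply lintegral_congr
  intro z
  simp only [rho_exp hq0]
  unfold W
  congr 2
  rw [Finset.mul_sum]
  refine Finset.sum_congr rfl fun j _ => ?_
  rw [sub_div, Real.exp_sub]
  field_simp

theorem lc_Psi {q : ℝ} (hq : 1 ≤ q) (c : Fin k → ℝ) (j0 : Fin (k + 1)) {l m : ℝ} (hl : 0 < l)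
    (hm : 0 < m) (hlm : l + m = 1) (σ σ' : Fin (k + 1) → ℝ) :
    Psi q c j0 σ ^ l * Psi q c j0 σ' ^ m ≤ Psi q c j0 (l • σ + m • σ') := by
  rw [Psi_eq hq, Psi_eq hq, Psi_eq hq, ENNReal.mul_rpow_of_nonneg _ _ hl.le,
    ENNReal.mul_rpow_of_nonneg _ _ hm.le, mul_mul_mul_comm]
  refine mul_le_mul' (le_of_eq ?_) ((J_geo hq c hl hm hlm _ _).trans (le_of_eq ?_))
  · rw [ENNReal.ofReal_rpow_of_pos (Real.exp_pos _), ENNReal.ofReal_rpow_of_pos (Real.exp_pos _),
      ← ENNReal.ofReal_mul (by positivity), ← Real.exp_mul, ← Real.exp_mul, ← Real.exp_add]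
    congr 2
    have : ∑ j, (l • σ + m • σ') (j0.succAbove j) / q
        = l * ∑ j, σ (j0.succAbove j) / q + m * ∑ j, σ' (j0.succAbove j) / q := by
      rw [Finset.mul_sum, Finset.mul_sum, ← Finset.sum_add_distrib]
      refine Finset.sum_congr rfl fun j _ => ?_
      simp only [Pi.add_apply, Pi.smul_apply, smul_eq_mul]
      ring
    rw [this]
    ring
  · congr 1
    funext j
    congr 2
    simp only [Pi.add_apply, Pi.smul_apply, smul_eq_mul]
    ring

theorem Psi_anti {q : ℝ} (c : Fin k → ℝ) (j0 : Fin (k + 1))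
    {σ σ' : Fin (k + 1) → ℝ} (h : ∀ j, σ j ≤ σ' j) : Psi q c j0 σ' ≤ Psi q c j0 σ := by
  apply lintegral_mono
  intro z
  have key : ∀ (a b y : ℝ), a ≤ b → ENNReal.ofReal (Real.exp (-(Real.exp b * |y| ^ q)))
      ≤ ENNReal.ofReal (Real.exp (-(Real.exp a * |y| ^ q))) := by
    intro a b y hab
    apply ENNReal.ofReal_le_ofReal
    apply Real.exp_le_exp.2
    apply neg_le_neg
    exact mul_le_mul_of_nonneg_right (Real.exp_le_exp.2 hab)
      (Real.rpow_nonneg (abs_nonneg _) _)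
  exact mul_le_mul' (key _ _ _ (h _)) (Finset.prod_le_prod' fun j _ => key _ _ _ (h _))

end Pool.Agent.Helper67.LB
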