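import Pool.Agent.Helper67.LB.Bus

open Set MeasureTheory Filter Topology
open scoped ENNReal

namespace Pool.Agent.Helper67.LB

variable {k : ℕ}

theorem J_eq_cons (q : ℝ) (p : Fin (k + 1) → ℝ) (i : Fin (k + 1)) :
    J q p = ∫⁻ v : ℝ, ∫⁻ x' : Fin k → ℝ,
      rho q (p i * v + ∑ j, p (i.succAbove j) * x' j) * (rho q v * W q x') := by
  unfold J
  rw [lintegral_cons (measurable_J_integrand q p) i]
  apply lintegral_congr
  intro v
  apply lintegral_congr
  intro x'
  rw [W_insertNth, Fin.sum_univ_succAbove _ i]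
  simp

theorem J_update_neg (q : ℝ) (p : Fin k → ℝ) (i : Fin k) :
    J q (Function.update p i (-p i)) = J q p := by
  cases k with
  | zero => exact i.elim0
  | succ k =>
    rw [J_eq_cons q _ i, J_eq_cons q p i]
    rw [← lintegral_neg_eq_self]
    apply lintegral_congr
    intro v
    apply lintegral_congr
    intro x'
    simp only [Function.update_self, rho_neg]
    congr 2
    congr 1
    · ring
    · refine Finset.sum_congr rfl fun j _ => ?_
      rw [Function.update_of_ne (Fin.succAbove_ne i j)]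

theorem J_update_le {q : ℝ} (hq : 1 ≤ q) (r : Fin k → ℝ) (i : Fin k) {u : ℝ}
    (hu : |u| ≤ |r i|) : J q r ≤ J q (Function.update r i u) := by
  by_cases h0 : r i = 0
  · rw [h0, abs_zero] at hu
    have hu0 : u = 0 := abs_nonpos_iff.1 hu
    have : Function.update r i u = r := by rw [hu0, ← h0, Function.update_eq_self]
    rw [this]
  by_cases h1 : u = r i
  · rw [h1, Function.update_eq_self]
  by_cases h2 : u = -r i
  · rw [h2, J_update_neg]
  set θ : ℝ := (1 + u / r i) / 2 with hθ
  have hquot : |u / r i| ≤ 1 := by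
    rw [abs_div]
    exact div_le_one_of_le₀ hu (abs_nonneg _)
  have hq1 : u / r i ≠ 1 := by
    intro h
    exact h1 ((div_eq_one_iff_eq h0).1 h)
  have hq2 : u / r i ≠ -1 := by
    intro h
    rw [div_eq_iff h0] at h
    exact h2 (by rw [h]; ring)
  have hb := abs_le.1 hquot
  have hθ0 : 0 < θ := by
    have : -1 < u / r i := lt_of_le_of_ne hb.1 (Ne.symm hq2)
    rw [hθ]; linarith
  have hθ1 : 0 < 1 - θ := by
    have : u / r i < 1 := lt_of_le_of_ne hb.2 hq1
    rw [hθ]; linarith
  have key := J_inv_convex hq r (Function.update r i (-r i)) hθ0 hθ1 (by ring)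
  have e1 : θ • r + (1 - θ) • Function.update r i (-r i) = Function.update r i u := by
    funext j
    by_cases hj : j = i
    · subst hj
      simp only [Pi.add_apply, Pi.smul_apply, Function.update_self, smul_eq_mul]
      rw [hθ]
      field_simp
      ring
    · simp only [Pi.add_apply, Pi.smul_apply, Function.update_of_ne hj, smul_eq_mul]
      ring
  rw [e1, J_update_neg, ← add_mul, ← ENNReal.ofReal_add hθ0.le hθ1.le, add_sub_cancel,
    ENNReal.ofReal_one, one_mul, ENNReal.inv_le_inv] at key
  exact key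

/-- Monotonicity. -/
theorem J_anti {q : ℝ} (hq : 1 ≤ q) {p r : Fin k → ℝ} (h : ∀ j, |p j| ≤ |r j|) :
    J q r ≤ J q p := by
  classical
  have key : ∀ s : Finset (Fin k), J q r ≤ J q (fun j => if j ∈ s then p j else r j) := by
    intro s
    induction s using Finset.induction_on with
    | empty => simp
    | insert i s hi ih =>
      refine ih.trans ?_
      have e : (fun j => if j ∈ insert i s then p j else r j)
          = Function.update (fun j => if j ∈ s then p j else r j) i (p i) := by
        funext j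
        by_cases hj : j = i
        · subst hj; simp
        · rw [Function.update_of_ne hj]
          simp [hj]
      rw [e]
      apply J_update_le hq
      simp only [hi, if_false]
      exact h i
  have := key Finset.univ
  simpa using this

theorem measurable_kap_right (i : Fin (k + 1)) (d : Fin (k + 1) → ℝ) (q : ℝ)
    (p : Fin (k + 1) → ℝ) (y : ℝ) : Measurable (fun v => kap i d q p y v) := by
  have h2 : Measurable (fun v : ℝ => ((y, v) : ℝ × ℝ)) := measurable_prodMk_left
  have h3 := (measurable_kap i d q p).comp h2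
  simpa only [Function.comp_def, Function.uncurry_apply_pair] using h3

theorem rho_zero {q : ℝ} (hq : 1 ≤ q) : rho q 0 = 1 := by
  unfold rho
  rw [abs_zero, Real.zero_rpow (by linarith), neg_zero, Real.exp_zero, ENNReal.ofReal_one]

theorem kap_zero {q : ℝ} (hq : 1 ≤ q) (i : Fin (k + 1)) (d : Fin (k + 1) → ℝ) (y v : ℝ) :
    kap i d q 0 y v = rho q y * kap i d q 0 0 v := by
  unfold kap
  simp only [Pi.zero_apply, zero_mul, Finset.sum_const_zero, zero_add, rho_zero hq, one_mul]
  rw [lintegral_const_mul]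
  have h1 : Measurable (fun x' : Fin k → ℝ => sl i d v x') := by
    have h2 : Measurable (fun x' : Fin k → ℝ => ((v, x') : ℝ × (Fin k → ℝ))) :=
      measurable_prodMk_left
    exact (measurable_sl i d).comp h2
  exact (measurable_W q).comp h1

theorem kap_zero_mono {q : ℝ} (hq : 1 ≤ q) (i : Fin (k + 1)) (d : Fin (k + 1) → ℝ) {t : ℝ}
    (ht : 1 ≤ t) (v : ℝ) : kap i d q 0 0 (t * v) ≤ kap i d q 0 0 v := by
  rcases eq_or_lt_of_le ht with h | h
  · rw [← h, one_mul]
  · have ht0 : 0 < t := by linarith
    have ha : 0 < (1 + t⁻¹) / 2 := by positivity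
    have hti : t⁻¹ < 1 := inv_lt_one_of_one_lt₀ h
    have hb : 0 < (1 - t⁻¹) / 2 := by linarith
    have h3 := kap_lc i d hq 0 ha hb (by ring) 0 (t * v) 0 (-(t * v))
    have h4 : kap i d q 0 0 (-(t * v)) = kap i d q 0 0 (t * v) := by
      have := kap_even i d q 0 0 (t * v)
      rwa [neg_zero] at this
    rw [h4, ← ENNReal.rpow_add_of_nonneg _ _ ha.le hb.le] at h3
    have h5 : (1 + t⁻¹) / 2 + (1 - t⁻¹) / 2 = 1 := by ring
    have h6 : (1 + t⁻¹) / 2 * 0 + (1 - t⁻¹) / 2 * 0 = (0 : ℝ) := by ring
    have h7 : (1 + t⁻¹) / 2 * (t * v) + (1 - t⁻¹) / 2 * -(t * v) = v := by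
      field_simp
      ring
    rw [h5, h6, h7, ENNReal.rpow_one] at h3
    exact h3

/-- `J` is not too small at smaller arguments. -/
theorem J_scale {q : ℝ} (hq : 1 ≤ q) (p : Fin k → ℝ) {t : ℝ} (ht : 1 ≤ t) :
    J q (t⁻¹ • p) ≤ ENNReal.ofReal t * J q p := by
  have ht0 : 0 < t := by linarith
  have h1 : (1 : ℝ≥0∞) ≤ ENNReal.ofReal t := by
    rw [← ENNReal.ofReal_one]; exact ENNReal.ofReal_le_ofReal ht
  by_cases hp : p = 0
  · rw [hp, smul_zero]
    calc J q (0 : Fin k → ℝ) = 1 * J q (0 : Fin k → ℝ) := (one_mul _).symm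
      _ ≤ _ := mul_le_mul' h1 le_rfl
  obtain ⟨i, hi⟩ := Function.ne_iff.1 hp
  cases k with
  | zero => exact i.elim0
  | succ k =>
    have hpi : p i ≠ 0 := hi
    have hline : ∀ s : ℝ, J q (s • p)
        = ENNReal.ofReal |p i|⁻¹ * ∫⁻ v, rho q (s * v) * kap i p q 0 0 v := by
      intro s
      have h := J_line i p q hpi 0 s
      rw [zero_add] at h
      rw [h]
      congr 1
      apply lintegral_congr
      intro v
      exact kap_zero hq i p _ _
    have e1 : J q p = ENNReal.ofReal |p i|⁻¹ * ∫⁻ v, rho q v * kap i p q 0 0 v := by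
      have h := hline 1
      simpa only [one_smul, one_mul] using h
    rw [hline t⁻¹, e1, mul_left_comm]
    refine mul_le_mul' le_rfl ?_
    have hg : Measurable (fun v => rho q (t⁻¹ * v) * kap i p q 0 0 v) :=
      ((measurable_rho q).comp (measurable_const_mul _)).mul (measurable_kap_right i p q 0 0)
    rw [lintegral_affine hg (inv_ne_zero ht0.ne') 0, abs_inv, inv_inv, abs_of_pos ht0]
    refine mul_le_mul' le_rfl (lintegral_mono fun v => ?_)
    have e2 : t⁻¹ * ((v - 0) / t⁻¹) = v := by
      rw [sub_zero, mul_div_cancel₀ _ (inv_ne_zero ht0.ne')]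
    have e3 : (v - 0) / t⁻¹ = t * v := by rw [sub_zero, div_inv_eq_mul, mul_comm]
    show rho q (t⁻¹ * ((v - 0) / t⁻¹)) * kap i p q 0 0 ((v - 0) / t⁻¹)
      ≤ rho q v * kap i p q 0 0 v
    rw [e2, e3]
    exact mul_le_mul' le_rfl (kap_zero_mono hq i p ht v)

end Pool.Agent.Helper67.LB
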