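import Pool.Agent.Helper67.LB.Geo
import Pool.Agent.Helper86.LP.Dup
import Pool.Agent.Helper86.LP.Section

open Set MeasureTheory Filter Topology Module
open scoped ENNReal

namespace Pool.Agent.Helper67.LB

open Pool.Agent.Helper86.LP

theorem haar_const {E : Type*} [NormedAddCommGroup E] [NormedSpace ℝ E] [FiniteDimensional ℝ E]
    [MeasurableSpace E] [BorelSpace E] (μ : Measure E) [μ.IsAddHaarMeasure] {k : ℕ}
    (e : E ≃ₗ[ℝ] (Fin k → ℝ)) :
    ∃ C : ℝ≥0∞, ∀ f : (Fin k → ℝ) → ℝ≥0∞, Measurable f → ∫⁻ x, f (e x) ∂μ = C * ∫⁻ z, f z := by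
  have he0 : Continuous e := LinearMap.continuous_of_finiteDimensional e.toLinearMap
  have he1 : Continuous e.symm := LinearMap.continuous_of_finiteDimensional e.symm.toLinearMap
  have he : Measurable e := he0.measurable
  have h1 : (μ.map e).IsAddHaarMeasure := e.toAddEquiv.isAddHaarMeasure_map μ he0 he1
  have hC := Measure.isAddLeftInvariant_eq_smul (μ.map e) (volume : Measure (Fin k → ℝ))
  refine ⟨(Measure.addHaarScalarFactor (μ.map e) (volume : Measure (Fin k → ℝ)) : ℝ≥0∞),
    fun f hf => ?_⟩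
  rw [← lintegral_map hf he]
  conv_lhs => rw [hC]
  exact lintegral_smul_measure _ _

variable {n : ℕ}

theorem exists_coords (H : Submodule ℝ (EuclideanSpace ℝ (Fin n)))
    (L : Fin (finrank ℝ H + 1) → (H →ₗ[ℝ] ℝ)) (hL : ∀ x : H, (∀ j, L j x = 0) → x = 0) :
    ∃ (j0 : Fin (finrank ℝ H + 1)) (e : H ≃ₗ[ℝ] (Fin (finrank ℝ H) → ℝ))
      (c : Fin (finrank ℝ H) → ℝ), (∀ x j, e x j = L (j0.succAbove j) x) ∧
      (∀ x, L j0 x = ∑ j, c j * e x j) := by
  have hdep : ¬ LinearIndependent ℝ L := by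
    intro h
    have h1 := h.fintype_card_le_finrank
    rw [Fintype.card_fin] at h1
    have h2 : finrank ℝ (H →ₗ[ℝ] ℝ) = finrank ℝ H := Subspace.dual_finrank_eq
    omega
  obtain ⟨g, hg, j0, hj0⟩ := Fintype.not_linearIndependent_iff.1 hdep
  have hg' : ∀ x : H, g j0 * L j0 x + ∑ j, g (j0.succAbove j) * L (j0.succAbove j) x = 0 := by
    intro x
    have h1 := congrArg (fun f : H →ₗ[ℝ] ℝ => f x) hg
    simp only [LinearMap.sum_apply, LinearMap.smul_apply, smul_eq_mul,
      LinearMap.zero_apply] at h1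
    rwa [Fin.sum_univ_succAbove _ j0] at h1
  set E : H →ₗ[ℝ] (Fin (finrank ℝ H) → ℝ) := LinearMap.pi fun j => L (j0.succAbove j) with hE
  have hEinj : Function.Injective E := by
    rw [← LinearMap.ker_eq_bot, LinearMap.ker_eq_bot']
    intro x hx
    apply hL
    have h1 : ∀ j, L (j0.succAbove j) x = 0 := fun j => congrFun hx j
    intro j
    rcases Fin.eq_self_or_eq_succAbove j0 j with rfl | ⟨j, rfl⟩
    · have h2 := hg' x
      simp only [h1, mul_zero, Finset.sum_const_zero, add_zero] at h2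
      exact (mul_eq_zero.1 h2).resolve_left hj0
    · exact h1 j
  refine ⟨j0, LinearEquiv.ofInjectiveOfFinrankEq E hEinj (by simp),
    fun j => -(g (j0.succAbove j) / g j0), fun x j => rfl, fun x => ?_⟩
  have h2 := hg' x
  have h3 : ∀ j, (LinearEquiv.ofInjectiveOfFinrankEq E hEinj (by simp)) x j
      = L (j0.succAbove j) x := fun j => rfl
  have h4 : L j0 x = -(∑ j, g (j0.succAbove j) * L (j0.succAbove j) x) / g j0 := by
    rw [eq_div_iff hj0]
    linarith
  rw [h4, neg_div, Finset.sum_div, ← Finset.sum_neg_distrib]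
  refine Finset.sum_congr rfl fun j _ => ?_
  rw [h3]
  ring

/-- The main theorem, in terms of the integral. -/
theorem lc_Phi (H : Submodule ℝ (EuclideanSpace ℝ (Fin n)))
    (L : Fin (finrank ℝ H + 1) → (H →ₗ[ℝ] ℝ))
    (hL : ∀ i, ∃ j, ∃ c : ℝ, ∀ x : H, (x : EuclideanSpace ℝ (Fin n)) i = c * L j x)
    {q : ℝ} (hq : 1 ≤ q) {l m : ℝ} (hl : 0 < l) (hm : 0 < m) (hlm : l + m = 1) :
    LC l m (Phi q H) := by
  classical
  have hq0 : 0 < q := by linarith
  choose J0 c0 hx using hL
  set S : Fin (finrank ℝ H + 1) → Finset (Fin n) :=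
    fun j => Finset.univ.filter fun i => J0 i = j ∧ c0 i ≠ 0 with hS
  set L' : Fin (finrank ℝ H + 1) → (H →ₗ[ℝ] ℝ) :=
    fun j => if (S j).Nonempty then L j else 0 with hL'
  have hx' : ∀ i (x : H), (x : EuclideanSpace ℝ (Fin n)) i = c0 i * L' (J0 i) x := by
    intro i x
    by_cases hc : c0 i = 0
    · rw [hx, hc, zero_mul, zero_mul]
    · have : (S (J0 i)).Nonempty := ⟨i, by simp [hS, hc]⟩
      rw [hx]
      simp only [hL', if_pos this]
  obtain ⟨j0, e, c, he, hc⟩ := exists_coords H L' (by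
    intro x h
    apply Subtype.ext
    ext i
    rw [hx', h, mul_zero]
    simp)
  obtain ⟨C, hC⟩ := haar_const (volume : Measure H) e
  set A : (Fin n → ℝ) → Fin (finrank ℝ H + 1) → ℝ :=
    fun τ j => ∑ i ∈ S j, Real.exp (τ i + q * Real.log |c0 i|) with hA
  set s : (Fin n → ℝ) → Fin (finrank ℝ H + 1) → ℝ := fun τ j => Real.log (A τ j) with hs
  have hterm : ∀ τ (x : H), ∑ i, Real.exp (τ i) * |(x : EuclideanSpace ℝ (Fin n)) i| ^ q
      = ∑ j, Real.exp (s τ j) * |L' j x| ^ q := by
    intro τ x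
    rw [← Finset.sum_fiberwise Finset.univ J0]
    refine Finset.sum_congr rfl fun j _ => ?_
    have h1 : ∑ i ∈ Finset.univ.filter (fun i => J0 i = j),
        Real.exp (τ i) * |(x : EuclideanSpace ℝ (Fin n)) i| ^ q
        = ∑ i ∈ S j, Real.exp (τ i) * |(x : EuclideanSpace ℝ (Fin n)) i| ^ q := by
      symm
      apply Finset.sum_subset
      · intro i hi
        simp only [hS, Finset.mem_filter, Finset.mem_univ, true_and] at hi ⊢
        exact hi.1
      · intro i hi hi'
        simp only [hS, Finset.mem_filter, Finset.mem_univ, true_and, not_and, not_not] at hi hi'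
        rw [hx i x, hi' hi, zero_mul, abs_zero, Real.zero_rpow hq0.ne', mul_zero]
    rw [h1]
    by_cases hne : (S j).Nonempty
    · have hApos : 0 < A τ j := Finset.sum_pos (fun i _ => Real.exp_pos _) hne
      simp only [hs]
      rw [Real.exp_log hApos]
      simp only [hA]
      rw [Finset.sum_mul]
      refine Finset.sum_congr rfl fun i hi => ?_
      simp only [hS, Finset.mem_filter, Finset.mem_univ, true_and] at hi
      rw [hx' i x, hi.1, abs_mul, Real.mul_rpow (abs_nonneg _) (abs_nonneg _), Real.exp_add,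
        mul_comm q, ← Real.rpow_def_of_pos (abs_pos.2 hi.2)]
      ring
    · rw [Finset.not_nonempty_iff_eq_empty] at hne
      have h0 : L' j = 0 := by simp [hL', hne]
      rw [hne, Finset.sum_empty, h0, LinearMap.zero_apply, abs_zero, Real.zero_rpow hq0.ne',
        mul_zero]
  have hPhi : ∀ τ, Phi q H τ = C * Psi q c j0 (s τ) := by
    intro τ
    unfold Phi Psi
    have hmeas : Measurable (fun z : Fin (finrank ℝ H) → ℝ =>
        ENNReal.ofReal (Real.exp (-(Real.exp (s τ j0) * |∑ j, c j * z j| ^ q)))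
          * ∏ j, ENNReal.ofReal
            (Real.exp (-(Real.exp (s τ (j0.succAbove j)) * |z j| ^ q)))) := by
      have hm1 : ∀ (u : (Fin (finrank ℝ H) → ℝ) → ℝ) (a : ℝ), Measurable u →
          Measurable (fun z => ENNReal.ofReal (Real.exp (-(Real.exp a * |u z| ^ q)))) := by
        intro u a hu
        simp only [rho_exp hq0]
        exact (measurable_rho q).comp (hu.const_mul _)
      refine Measurable.mul (hm1 _ _ (by fun_prop)) ?_
      exact Finset.measurable_prod _ fun j _ => hm1 _ _ (measurable_pi_apply j)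
    rw [← hC _ hmeas]
    apply lintegral_congr
    intro x
    rw [exp_sum_eq, hterm, Fin.sum_univ_succAbove _ j0, neg_add, Real.exp_add,
      ENNReal.ofReal_mul (Real.exp_pos _).le, hc, ← Finset.sum_neg_distrib, Real.exp_sum,
      ENNReal.ofReal_prod_of_nonneg (fun _ _ => (Real.exp_pos _).le)]
    simp only [he]
  have hslc : ∀ (a b : Fin n → ℝ) (j), s (l • a + m • b) j ≤ (l • s a + m • s b) j := by
    intro a b j
    by_cases hne : (S j).Nonempty
    · have : Nonempty (S j) := hne.to_subtype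
      have h1 := logSumExp_le (κ := (S j))
        (fun i => a i + q * Real.log |c0 i|) (fun i => b i + q * Real.log |c0 i|) hl hm hlm
      simp only [hs, hA, Pi.add_apply, Pi.smul_apply, smul_eq_mul]
      rw [← Finset.sum_coe_sort (S j), ← Finset.sum_coe_sort (S j), ← Finset.sum_coe_sort (S j)]
      refine le_trans (le_of_eq ?_) h1
      congr 1
      refine Finset.sum_congr rfl fun i _ => ?_
      congr 1
      have hl' : l = 1 - m := by linarith
      rw [hl']
      ring
    · rw [Finset.not_nonempty_iff_eq_empty] at hne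
      simp [hs, hA, hne]
  intro a b
  rw [hPhi, hPhi, hPhi, ENNReal.mul_rpow_of_nonneg _ _ hl.le, ENNReal.mul_rpow_of_nonneg _ _ hm.le,
    mul_mul_mul_comm, ← ENNReal.rpow_add_of_nonneg _ _ hl.le hm.le, hlm, ENNReal.rpow_one]
  exact mul_le_mul' le_rfl ((lc_Psi hq c j0 hl hm hlm _ _).trans (Psi_anti c j0 (hslc a b)))

/-- The function is log-concave for the subspaces with few directions. -/
theorem isLogConcave_of_directions {p : ℝ} (hp : 1 ≤ p)
    (H : Submodule ℝ (EuclideanSpace ℝ (Fin n))) (L : Fin (finrank ℝ H + 1) → (H →ₗ[ℝ] ℝ))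
    (hL : ∀ i, ∃ j, ∃ c : ℝ, ∀ x : H, (x : EuclideanSpace ℝ (Fin n)) i = c * L j x) :
    IsLogConcave (sectionVolume p H) := by
  rw [isLogConcave_iff hp]
  intro l m hl hm hlm
  exact lc_Phi H L hL hp hl hm hlm

/-- The function is log-concave for hyperplanes. -/
theorem isLogConcave_of_hyperplane {p : ℝ} (hp : 1 ≤ p)
    (H : Submodule ℝ (EuclideanSpace ℝ (Fin n))) (hH : finrank ℝ H + 1 = n) :
    IsLogConcave (sectionVolume p H) := by
  refine isLogConcave_of_directions hp H (fun j =>
    ((EuclideanSpace.proj (Fin.cast hH j) : EuclideanSpace ℝ (Fin n) →L[ℝ] ℝ).toLinearMap).comp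
      H.subtype) ?_
  intro i
  refine ⟨Fin.cast hH.symm i, 1, fun x => ?_⟩
  simp

end Pool.Agent.Helper67.LB
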