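import Pool.Agent.Helper67.LB.Two
import Pool.Agent.Helper67.LB.PLn

open Set MeasureTheory Filter Topology
open scoped ENNReal

namespace Pool.Agent.Helper67.LB

/-- The function `exp (-|y|^q)`. -/
noncomputable def rho (q y : ℝ) : ℝ≥0∞ := ENNReal.ofReal (Real.exp (-(|y| ^ q)))

/-- The product of the functions `exp (-|x_j|^q)`. -/
noncomputable def W {k : ℕ} (q : ℝ) (x : Fin k → ℝ) : ℝ≥0∞ := ∏ j, rho q (x j)

/-- The main integral. -/
noncomputable def J {k : ℕ} (q : ℝ) (p : Fin k → ℝ) : ℝ≥0∞ :=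
  ∫⁻ x : Fin k → ℝ, rho q (∑ j, p j * x j) * W q x

theorem measurable_rho (q : ℝ) : Measurable (rho q) := by
  unfold rho
  have h : Measurable (fun y : ℝ => |y| ^ q) := (continuous_abs.measurable).pow_const q
  exact h.neg.exp.ennreal_ofReal

theorem measurable_W {k : ℕ} (q : ℝ) : Measurable (W (k := k) q) := by
  unfold W
  exact Finset.measurable_prod _ fun i _ => (measurable_rho q).comp (measurable_pi_apply i)

theorem rho_ne_zero (q y : ℝ) : rho q y ≠ 0 := (ENNReal.ofReal_pos.2 (Real.exp_pos _)).ne'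

theorem rho_ne_top (q y : ℝ) : rho q y ≠ ∞ := ENNReal.ofReal_ne_top

theorem rho_le_one (q y : ℝ) : rho q y ≤ 1 := by
  unfold rho
  rw [← ENNReal.ofReal_one]
  apply ENNReal.ofReal_le_ofReal
  apply Real.exp_le_one_iff.2
  have : 0 ≤ |y| ^ q := Real.rpow_nonneg (abs_nonneg _) _
  linarith

theorem rho_neg (q y : ℝ) : rho q (-y) = rho q y := by
  unfold rho; rw [abs_neg]

theorem abs_rpow_convex {q : ℝ} (hq : 1 ≤ q) {a b : ℝ} (ha : 0 < a) (hb : 0 < b)
    (hab : a + b = 1) (x y : ℝ) :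
    |a * x + b * y| ^ q ≤ a * |x| ^ q + b * |y| ^ q := by
  have h1 : |a * x + b * y| ≤ a * |x| + b * |y| := by
    refine (abs_add_le _ _).trans ?_
    rw [abs_mul, abs_mul, abs_of_pos ha, abs_of_pos hb]
  have h2 : |a * x + b * y| ^ q ≤ (a * |x| + b * |y|) ^ q :=
    Real.rpow_le_rpow (abs_nonneg _) h1 (by linarith)
  refine h2.trans ?_
  have h3 := (convexOn_rpow hq).2 (x := |x|) (y := |y|) (mem_Ici.2 (abs_nonneg _)) (mem_Ici.2 (abs_nonneg _))
    ha.le hb.le hab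
  simpa [smul_eq_mul] using h3

theorem rho_lc {q : ℝ} (hq : 1 ≤ q) {a b : ℝ} (ha : 0 < a) (hb : 0 < b)
    (hab : a + b = 1) (x y : ℝ) :
    rho q x ^ a * rho q y ^ b ≤ rho q (a * x + b * y) := by
  unfold rho
  rw [ENNReal.ofReal_rpow_of_pos (Real.exp_pos _), ENNReal.ofReal_rpow_of_pos (Real.exp_pos _),
    ← ENNReal.ofReal_mul (by positivity), ← Real.exp_mul, ← Real.exp_mul, ← Real.exp_add]
  apply ENNReal.ofReal_le_ofReal
  apply Real.exp_le_exp.2
  have := abs_rpow_convex hq ha hb hab x y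
  nlinarith

theorem W_lc {k : ℕ} {q : ℝ} (hq : 1 ≤ q) {a b : ℝ} (ha : 0 < a) (hb : 0 < b)
    (hab : a + b = 1) (x y : Fin k → ℝ) :
    W q x ^ a * W q y ^ b ≤ W q (a • x + b • y) := by
  unfold W
  rw [← ENNReal.prod_rpow_of_nonneg ha.le, ← ENNReal.prod_rpow_of_nonneg hb.le,
    ← Finset.prod_mul_distrib]
  apply Finset.prod_le_prod'
  intro i _
  simpa using rho_lc hq ha hb hab (x i) (y i)

theorem W_ne_zero {k : ℕ} (q : ℝ) (x : Fin k → ℝ) : W q x ≠ 0 :=
  Finset.prod_ne_zero_iff.2 fun _ _ => rho_ne_zero q _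

theorem W_le_one {k : ℕ} (q : ℝ) (x : Fin k → ℝ) : W q x ≤ 1 :=
  Finset.prod_le_one' fun _ _ => rho_le_one q _

theorem W_neg {k : ℕ} (q : ℝ) (x : Fin k → ℝ) : W q (-x) = W q x := by
  unfold W
  exact Finset.prod_congr rfl fun i _ => by rw [Pi.neg_apply, rho_neg]

theorem W_insertNth {k : ℕ} (q : ℝ) (i : Fin (k + 1)) (v : ℝ) (x : Fin k → ℝ) :
    W q (i.insertNth v x : Fin (k + 1) → ℝ) = rho q v * W q x := by
  unfold W
  rw [Fin.prod_univ_succAbove _ i]
  simp

theorem lintegral_rho_ne_top {q : ℝ} (hq : 1 ≤ q) : ∫⁻ y, rho q y ≠ ∞ := by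
  have hint : Integrable (fun x : ℝ => (2 * Real.exp 1) * (1 + ‖x‖) ^ (-2 : ℝ)) := by
    apply Integrable.const_mul
    apply integrable_one_add_norm
    simp
  refine ((lintegral_mono ?_).trans_lt hint.lintegral_lt_top).ne
  intro y
  unfold rho
  apply ENNReal.ofReal_le_ofReal
  set t := |y| with ht
  have ht0 : 0 ≤ t := abs_nonneg _
  have h1 : t - 1 ≤ t ^ q := by
    rcases le_or_gt t 1 with h | h
    · have : 0 ≤ t ^ q := Real.rpow_nonneg ht0 _
      linarith
    · have : t ≤ t ^ q := by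
        conv_lhs => rw [← Real.rpow_one t]
        exact Real.rpow_le_rpow_of_exponent_le h.le hq
      linarith
  have h2 : Real.exp (-(t ^ q)) ≤ Real.exp 1 * Real.exp (-t) := by
    rw [← Real.exp_add]
    apply Real.exp_le_exp.2
    linarith
  have h3 : Real.exp (-t) ≤ 2 * (1 + ‖y‖) ^ (-2 : ℝ) := by
    rw [Real.norm_eq_abs, ← ht, Real.exp_neg, Real.rpow_neg (by positivity), Real.rpow_two,
      ← div_eq_mul_inv, inv_eq_one_div, div_le_div_iff₀ (Real.exp_pos _) (by positivity)]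
    have := Real.quadratic_le_exp_of_nonneg ht0
    nlinarith
  calc Real.exp (-(t ^ q)) ≤ Real.exp 1 * Real.exp (-t) := h2
    _ ≤ Real.exp 1 * (2 * (1 + ‖y‖) ^ (-2 : ℝ)) :=
        mul_le_mul_of_nonneg_left h3 (Real.exp_pos _).le
    _ = _ := by ring

theorem lintegral_W {k : ℕ} (q : ℝ) : ∫⁻ x : Fin k → ℝ, W q x = (∫⁻ y, rho q y) ^ k := by
  induction k with
  | zero =>
    rw [lintegral_unique]
    simp only [volume_pi, Measure.pi_empty_univ, mul_one, pow_zero]
    unfold W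
    simp
  | succ k ih =>
    rw [lintegral_cons (measurable_W q) 0]
    simp only [W_insertNth]
    have : ∀ v : ℝ, ∫⁻ x' : Fin k → ℝ, rho q v * W q x' = rho q v * (∫⁻ y, rho q y) ^ k := by
      intro v
      rw [lintegral_const_mul _ (measurable_W q), ih]
    simp only [this]
    rw [lintegral_mul_const _ (measurable_rho q), pow_succ, mul_comm]

theorem lintegral_W_ne_top {k : ℕ} {q : ℝ} (hq : 1 ≤ q) : ∫⁻ x : Fin k → ℝ, W q x ≠ ∞ := by
  rw [lintegral_W]
  exact ENNReal.pow_ne_top (lintegral_rho_ne_top hq)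

theorem measurable_J_integrand {k : ℕ} (q : ℝ) (p : Fin k → ℝ) :
    Measurable (fun x : Fin k → ℝ => rho q (∑ j, p j * x j) * W q x) := by
  refine Measurable.mul ((measurable_rho q).comp ?_) (measurable_W q)
  fun_prop

theorem lintegral_ne_zero_of_pos {k : ℕ} {f : (Fin k → ℝ) → ℝ≥0∞} (hf : Measurable f)
    (h : ∀ x, f x ≠ 0) : ∫⁻ x, f x ≠ 0 := by
  rw [Ne, lintegral_eq_zero_iff hf]
  intro h0
  have h2 : (volume : Measure (Fin k → ℝ)) univ = 0 := by
    have := ae_iff.1 h0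
    convert this using 2
    ext x
    simp only [mem_univ, true_iff, Pi.zero_apply]
    exact h x
  exact (Measure.measure_univ_ne_zero.2 (NeZero.ne (volume : Measure (Fin k → ℝ)))) h2

theorem J_ne_zero {k : ℕ} (q : ℝ) (p : Fin k → ℝ) : J q p ≠ 0 :=
  lintegral_ne_zero_of_pos (measurable_J_integrand q p) fun _ =>
    mul_ne_zero (rho_ne_zero _ _) (W_ne_zero _ _)

theorem J_ne_top {k : ℕ} {q : ℝ} (hq : 1 ≤ q) (p : Fin k → ℝ) : J q p ≠ ∞ := by
  refine ((lintegral_mono fun x => ?_).trans_lt (lt_top_iff_ne_top.2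
    (lintegral_W_ne_top (k := k) hq))).ne
  calc rho q (∑ j, p j * x j) * W q x ≤ 1 * W q x := mul_le_mul' (rho_le_one _ _) le_rfl
    _ = W q x := one_mul _

end Pool.Agent.Helper67.LB
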